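import Pool.Agent.H47.Fad.Lib.Prod
import Pool.Agent.H47.Fad.Lib.Jac2

/-!
# Euler products `f_k = ∏ (1 - X^{k n})` and classical theta identities
-/

set_option autoImplicit false

namespace Q279.QS

open PowerSeries Filter Topology
open scoped PowerSeries.WithPiTopology

/-- `f_k = ∏_{n ≥ 1} (1 - X^{k n})` -/
noncomputable def eul (k : ℕ) : ℤ⟦X⟧ := ∏' i : ℕ, (1 - X ^ (k * (i + 1)))

theorem continuous_expand {k : ℕ} (hk : k ≠ 0) : Continuous (expand (R := ℤ) k hk) := by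
  refine continuous_iff_continuousAt.2 fun f => ?_
  refine (WithPiTopology.tendsto_iff_coeff_tendsto ℤ _ _ _).2 fun d => ?_
  simp_rw [coeff_expand]
  split_ifs
  · exact (WithPiTopology.continuous_coeff ℤ _).tendsto _
  · exact tendsto_const_nhds

theorem expand_tprod {k : ℕ} (hk : k ≠ 0) {u : ℕ → ℤ⟦X⟧} (hu : Multipliable u) :
    expand k hk (∏' i, u i) = ∏' i, expand k hk (u i) :=
  hu.map_tprod (expand k hk) (continuous_expand hk)

theorem expand_eul {k : ℕ} (hk : k ≠ 0) {j : ℕ} (hj : 1 ≤ j) :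
    expand k hk (eul j) = eul (k * j) := by
  unfold eul
  rw [expand_tprod hk (mult_eul j hj)]
  refine tprod_congr fun i => ?_
  rw [map_sub, map_one, map_pow, expand_X, ← pow_mul]
  congr 2
  ring

theorem constCoeff_tprod {u : ℕ → ℤ⟦X⟧} (hu : Multipliable u) (h : ∀ i, constantCoeff (u i) = 1) :
    constantCoeff (∏' i, u i) = 1 := by
  rw [hu.map_tprod (constantCoeff (R := ℤ)) (WithPiTopology.continuous_constantCoeff ℤ)]
  simp [h]

theorem constCoeff_eul {k : ℕ} (hk : 1 ≤ k) : constantCoeff (eul k) = 1 := by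
  refine constCoeff_tprod (mult_eul k hk) fun i => ?_
  have : k * (i + 1) ≠ 0 := by positivity
  rw [map_sub, map_one, map_pow, constantCoeff_X, zero_pow this, sub_zero]

theorem eul_ne_zero {k : ℕ} (hk : 1 ≤ k) : eul k ≠ 0 := by
  intro h
  have := constCoeff_eul hk
  rw [h] at this
  simp at this

/-- splitting a product into even and odd indices -/
theorem tprod_even_odd {u : ℕ → ℤ⟦X⟧} (hu : Multipliable u)
    (h0 : Multipliable fun i => u (2 * i)) (h1 : Multipliable fun i => u (2 * i + 1)) :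
    ∏' i, u i = (∏' i, u (2 * i)) * ∏' i, u (2 * i + 1) := by
  rw [← h0.tprod_mul h1]
  symm
  refine tprod_eq_of_coeff (h0.mul h1) fun m => ?_
  have h2 := eventually_coeff hu m
  rw [eventually_atTop] at h2 ⊢
  obtain ⟨N, hN⟩ := h2
  refine ⟨N, fun M hM => ?_⟩
  rw [← hN (2 * M) (by omega)]
  congr 1
  clear hM
  induction M with
  | zero => simp
  | succ M ih => rw [Finset.prod_range_succ, ih, show 2 * (M + 1) = 2 * M + 1 + 1 by ring,
      Finset.prod_range_succ, Finset.prod_range_succ]; ring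

/-- the product over odd exponents, `∏ (1 - ε X^{2i+1})` -/
noncomputable def oddP (ε : ℤ) : ℤ⟦X⟧ := ∏' i : ℕ, (1 - C ε * X ^ (1 + 2 * i))

theorem eul_one_eq : eul 1 = oddP 1 * eul 2 := by
  unfold eul oddP
  rw [tprod_even_odd (mult_eul 1 le_rfl)]
  · congr 1
    · refine tprod_congr fun i => ?_
      rw [map_one, one_mul]; congr 2; ring
    · refine tprod_congr fun i => ?_
      congr 2; ring
  · refine (mult_aux 1 1 2 le_rfl (by norm_num)).congr fun i => ?_
    rw [map_one, one_mul]; congr 2; ring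
  · refine (mult_eul 2 (by norm_num)).congr fun i => ?_
    congr 2; ring

theorem oddP_mul : oddP 1 * oddP (-1) = expand 2 (by norm_num) (oddP 1) := by
  unfold oddP
  have m1 := mult_aux 1 1 2 le_rfl (by norm_num)
  have m2 := mult_aux (-1) 1 2 le_rfl (by norm_num)
  rw [expand_tprod _ m1, ← m1.tprod_mul m2]
  refine tprod_congr fun i => ?_
  simp only [map_one, one_mul, map_neg, neg_mul, map_sub, map_pow, expand_X]
  ring

/-- `∏ (1 + X^{2i+1}) · f_1 · f_4 = f_2^2` -/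
theorem oddP_neg : oddP (-1) * eul 1 * eul 4 = eul 2 ^ 2 := by
  have h1 := eul_one_eq
  have h2 := oddP_mul
  have h3 := congrArg (expand 2 (by norm_num)) h1
  rw [map_mul, expand_eul _ le_rfl, expand_eul _ (by norm_num), ← h2] at h3
  norm_num at h3
  rw [h1]
  rw [pow_two]
  nth_rewrite 3 [h3]
  ring

/-- **Gauss**: `f_1^2 = f_2 ∑ (-1)^n X^{n^2}` -/
theorem gauss_phi : eul 1 ^ 2 = eul 2 * TS (fun n : ℤ => n ^ 2) (fun n => (-1) ^ n.natAbs) := by
  have h := jtp 1 1 le_rfl le_rfl 1 (by norm_num)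
  norm_num only at h
  have h1 : (∏' i : ℕ, (1 - C (1 : ℤ) * X ^ (1 + 2 * i) : ℤ⟦X⟧)) = oddP 1 := rfl
  have h2 : (∏' i : ℕ, (1 - X ^ (2 * (i + 1)) : ℤ⟦X⟧)) = eul 2 := rfl
  rw [h1, h2] at h
  have h3 : TS (te 1 1) (fun n : ℤ => (-1 : ℤ) ^ n.natAbs) =
      TS (fun n : ℤ => n ^ 2) (fun n => (-1) ^ n.natAbs) := by
    refine TS_congr (fun n => ?_) fun _ => rfl
    have := two_tri n
    unfold te
    push_cast
    linarith
  rw [h3] at h
  rw [← h, eul_one_eq]
  ring

/-- **Gauss**: `f_2^2 = f_1 ∑ X^{2n^2-n}` -/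
theorem gauss_psi : eul 2 ^ 2 = eul 1 * TS (fun n : ℤ => 2 * n ^ 2 - n) (fun _ => (1 : ℤ)) := by
  have h := jtp 1 3 le_rfl (by norm_num) (-1) (by norm_num)
  have h3 : TS (te 1 3) (fun n : ℤ => (-(-1) : ℤ) ^ n.natAbs) =
      TS (fun n : ℤ => 2 * n ^ 2 - n) (fun _ => (1 : ℤ)) := by
    refine TS_congr (fun n => ?_) fun n => by norm_num
    have := two_tri n
    unfold te
    push_cast
    linarith
  rw [h3] at h
  norm_num only at h
  have h4 : (∏' i : ℕ, (1 - C (-1 : ℤ) * X ^ (1 + 4 * i) : ℤ⟦X⟧)) *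
      (∏' i : ℕ, (1 - C (-1 : ℤ) * X ^ (3 + 4 * i) : ℤ⟦X⟧)) = oddP (-1) := by
    unfold oddP
    rw [tprod_even_odd (mult_aux (-1) 1 2 le_rfl (by norm_num))]
    · congr 1
      · exact tprod_congr fun i => by congr 3; ring
      · exact tprod_congr fun i => by congr 3; ring
    · refine (mult_aux (-1) 1 4 le_rfl (by norm_num)).congr fun i => ?_
      congr 3; ring
    · refine (mult_aux (-1) 3 4 (by norm_num) (by norm_num)).congr fun i => ?_
      congr 3; ring
  have h5 : (∏' i : ℕ, (1 - X ^ (4 * (i + 1)) : ℤ⟦X⟧)) = eul 4 := rfl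
  rw [h4, h5] at h
  rw [← h, ← oddP_neg]
  ring

/-- **Euler**: `f_1 = ∑ (-1)^n X^{n(3n-1)/2}` -/
theorem pentagonal : eul 1 = TS (te 1 2) (fun n : ℤ => (-1) ^ n.natAbs) := by
  have h := jtp 1 2 le_rfl (by norm_num) 1 (by norm_num)
  norm_num only at h
  rw [← h]
  unfold eul
  have hm := mult_eul 1 le_rfl
  -- split modulo 3
  symm
  have m1 := mult_aux 1 1 3 le_rfl (by norm_num)
  have m2 := mult_aux 1 2 3 (by norm_num) (by norm_num)
  have m3 := mult_eul 3 (by norm_num)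
  rw [← m1.tprod_mul m2, ← (m1.mul m2).tprod_mul m3]
  refine tprod_eq_of_coeff ((m1.mul m2).mul m3) fun m => ?_
  have h2 := eventually_coeff hm m
  rw [eventually_atTop] at h2 ⊢
  obtain ⟨N, hN⟩ := h2
  refine ⟨N, fun M hM => ?_⟩
  rw [← hN (3 * M) (by omega)]
  congr 1
  clear hM
  induction M with
  | zero => simp
  | succ M ih =>
    rw [Finset.prod_range_succ, ih, show 3 * (M + 1) = 3 * M + 1 + 1 + 1 by ring,
      Finset.prod_range_succ, Finset.prod_range_succ, Finset.prod_range_succ, map_one]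
    ring

/-- **Jacobi**: `f_1^3 = ∑_{n ≥ 0} (-1)^n (2n+1) X^{n(n+1)/2}` -/
theorem jacobi : eul 1 ^ 3 = TS (fun n : ℕ => (((n + 1).choose 2 : ℕ) : ℤ))
    (fun n : ℕ => (-1 : ℤ) ^ n * (2 * (n : ℤ) + 1)) := by
  ext m
  have h1 := eventually_coeff (mult_eul 1 le_rfl)
  -- coefficients of the cube
  have h2 : Tendsto (fun N => (∏ i ∈ Finset.range N, (1 - X ^ (1 * (i + 1)) : ℤ⟦X⟧)) ^ 3) atTop
      (𝓝 (eul 1 ^ 3)) := ((mult_eul 1 le_rfl).hasProd.tendsto_prod_nat).pow 3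
  have h3 := (WithPiTopology.tendsto_iff_coeff_tendsto ℤ _ _ _).1 h2 m
  rw [nhds_discrete, tendsto_pure, eventually_atTop] at h3
  obtain ⟨N, hN⟩ := h3
  have h4 := hN (max N m) (le_max_left _ _)
  rw [← h4]
  set M := max N m with hM
  have hmM : m ≤ M := le_max_right _ _
  have h5 := Polynomial.X_pow_dvd_iff.1 (Pool.Agent.Y246.Z700.jac_dvd M) m (by omega)
  rw [Polynomial.coeff_sub, sub_eq_zero, Polynomial.finsetSum_coeff] at h5
  have h6 : (∏ i ∈ Finset.range M, (1 - X ^ (1 * (i + 1)) : ℤ⟦X⟧)) ^ 3 =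
      (((Pool.Agent.Y246.Z700.PP M) ^ 3 : Polynomial ℤ) : ℤ⟦X⟧) := by
    rw [Pool.Agent.Y246.Z700.PP]
    simp only [← Polynomial.coeToPowerSeries.ringHom_apply, map_pow, map_prod, map_sub, map_one]
    simp
  have h7 : ∀ n : ℕ, (n : ℤ) ≤ (((n + 1).choose 2 : ℕ) : ℤ) := fun n => by
    exact_mod_cast Pool.Agent.Y246.Z700.k_le_tri n
  rw [h6, Polynomial.coeff_coe, h5, coeff_TS_nat h7 _ (Nat.lt_succ_of_le hmM)]
  refine Finset.sum_congr rfl fun k _ => ?_
  have e : (-1) ^ k * (2 * (k : Polynomial ℤ) + 1) * Polynomial.X ^ ((k + 1).choose 2) =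
      Polynomial.C ((-1) ^ k * (2 * (k : ℤ) + 1)) * Polynomial.X ^ ((k + 1).choose 2) := by
    simp
  rw [e, Polynomial.coeff_C_mul, Polynomial.coeff_X_pow]
  simp only [Nat.cast_inj, mul_ite, mul_one, mul_zero]
  exact if_congr eq_comm rfl rfl

end Q279.QS
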