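import Pool.Agent.H47.Fad.Lib.Stm

/-!
# Functions on the upper half plane given by a convergent `q`-series
-/

set_option autoImplicit false

noncomputable section

open UpperHalfPlane hiding I
open ModularForm MatrixGroups Filter Topology Function Real Complex
open scoped Manifold

namespace Pool.Agent.Q237.SX

open Pool.Agent.Q279.SC (th)

/-- the function `F` is the sum of the `q`-series `a` -/
def HQ (F : ℍ → ℂ) (a : PowerSeries ℂ) : Prop :=
  ∀ τ : ℍ, HasSum (fun m => a.coeff m • Periodic.qParam 1 τ ^ m) (F τ)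

theorem HQ.unique {F : ℍ → ℂ} {a b : PowerSeries ℂ} (ha : HQ F a) (hb : HQ F b) : a = b := by
  have h1 : ∀ τ : ℍ, HasSum (fun m => ((a - b).coeff m) • Periodic.qParam 1 τ ^ m)
      ((0 : ModularForm 𝒮ℒ 0) τ) := by
    intro τ
    have h2 := (ha τ).sub (hb τ)
    rw [sub_self] at h2
    simp only [map_sub, sub_smul]
    exact h2
  have h2 := ModularFormClass.qExpansion_coeff_unique one_pos one_mem_strictPeriods_SL h1
  rw [← sub_eq_zero]
  ext m
  rw [h2 m, FunLike.coe_zero, qExpansion_zero]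

theorem HQ.congr {F G : ℍ → ℂ} {a : PowerSeries ℂ} (ha : HQ F a) (h : ∀ τ, F τ = G τ) : HQ G a :=
  fun τ => (h τ) ▸ ha τ

theorem HQ.bdd {F : ℍ → ℂ} {a : PowerSeries ℂ} (ha : HQ F a) : IsBoundedAtImInfty F :=
  isBoundedAtImInfty_of_hasSum_qExpansion one_pos ha

theorem HQ.add {F G : ℍ → ℂ} {a b : PowerSeries ℂ} (ha : HQ F a) (hb : HQ G b) :
    HQ (fun τ => F τ + G τ) (a + b) := by
  intro τ
  have h := (ha τ).add (hb τ)
  simp only [map_add, add_smul]
  exact h

theorem HQ.sub {F G : ℍ → ℂ} {a b : PowerSeries ℂ} (ha : HQ F a) (hb : HQ G b) :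
    HQ (fun τ => F τ - G τ) (a - b) := by
  intro τ
  have h := (ha τ).sub (hb τ)
  simp only [map_sub, sub_smul]
  exact h

theorem HQ.smul {F : ℍ → ℂ} {a : PowerSeries ℂ} (ha : HQ F a) (c : ℂ) :
    HQ (fun τ => c * F τ) (PowerSeries.C c * a) := by
  intro τ
  have h := (ha τ).mul_left c
  simp only [PowerSeries.coeff_C_mul, smul_eq_mul, mul_assoc] at h ⊢
  exact h

theorem HQ.sumN {F : ℍ → ℂ} {a : PowerSeries ℂ} (ha : HQ F a) (τ : ℍ) :
    Summable fun m => ‖a.coeff m • Periodic.qParam 1 τ ^ m‖ := (ha τ).summable.norm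

theorem HQ.mul {F G : ℍ → ℂ} {a b : PowerSeries ℂ} (ha : HQ F a) (hb : HQ G b) :
    HQ (fun τ => F τ * G τ) (a * b) := by
  intro τ
  have h1 := ha.sumN τ
  have h2 := hb.sumN τ
  have h3 := summable_norm_sum_mul_antidiagonal_of_summable_norm h1 h2
  have h4 := tsum_mul_tsum_eq_tsum_sum_antidiagonal_of_summable_norm h1 h2
  rw [(ha τ).tsum_eq, (hb τ).tsum_eq] at h4
  change HasSum _ (F τ * G τ)
  rw [h4]
  have h5 : (fun m => (a * b).coeff m • Periodic.qParam 1 τ ^ m) = fun n =>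
      ∑ kl ∈ Finset.HasAntidiagonal.antidiagonal n, a.coeff kl.1 • Periodic.qParam 1 τ ^ kl.1 *
        b.coeff kl.2 • Periodic.qParam 1 τ ^ kl.2 := by
    funext n
    rw [PowerSeries.coeff_mul, smul_eq_mul, Finset.sum_mul]
    refine Finset.sum_congr rfl fun kl hkl => ?_
    rw [Finset.HasAntidiagonal.mem_antidiagonal] at hkl
    rw [← hkl, pow_add, smul_eq_mul, smul_eq_mul]
    ring
  rw [h5]
  exact h3.of_norm.hasSum

theorem HQ.one : HQ (fun _ => 1) 1 := by
  intro τ
  have h : (fun m => (1 : PowerSeries ℂ).coeff m • Periodic.qParam 1 τ ^ m) =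
      fun m : ℕ => if m = 0 then (1 : ℂ) else 0 := by
    funext m
    rw [PowerSeries.coeff_one]
    split_ifs with hm
    · rw [hm, pow_zero, one_smul]
    · rw [zero_smul]
  rw [h]
  exact hasSum_ite_eq 0 (1 : ℂ)

theorem HQ.zero : HQ (fun _ => 0) 0 := by
  intro τ
  have h : (fun m => (0 : PowerSeries ℂ).coeff m • Periodic.qParam 1 τ ^ m) = fun _ => 0 := by
    funext m
    rw [map_zero, zero_smul]
  rw [h]
  exact hasSum_zero

theorem HQ.pow {F : ℍ → ℂ} {a : PowerSeries ℂ} (ha : HQ F a) (n : ℕ) :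
    HQ (fun τ => F τ ^ n) (a ^ n) := by
  induction n with
  | zero =>
    simp only [pow_zero]
    exact HQ.one
  | succ n ih =>
    simp only [pow_succ]
    exact ih.mul ha

theorem HQ.const (c : ℂ) : HQ (fun _ => c) (PowerSeries.C c) := by
  have h := HQ.one.smul c
  simp only [mul_one] at h
  exact h

theorem HQ.sum {ι : Type} (s : Finset ι) {F : ι → ℍ → ℂ} {a : ι → PowerSeries ℂ}
    (h : ∀ i ∈ s, HQ (F i) (a i)) : HQ (fun τ => ∑ i ∈ s, F i τ) (∑ i ∈ s, a i) := by
  classical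
  induction s using Finset.induction_on with
  | empty =>
    simp only [Finset.sum_empty]
    exact HQ.zero
  | insert i s hi ih =>
    simp only [Finset.sum_insert hi]
    exact (h i (Finset.mem_insert_self i s)).add
      (ih fun j hj => h j (Finset.mem_insert_of_mem hj))

/-- the `q`-expansion of a modular form -/
theorem HQ.of_mf {k : ℤ} (f : ModularForm 𝒮ℒ k) : HQ f (qExpansion 1 f) := by
  intro τ
  exact ModularForm.hasSum_qExpansion f one_pos one_mem_strictPeriods_SL τ

section der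

variable {F : ℍ → ℂ} {a : PowerSeries ℂ}

lemma qp_norm (w : ℂ) : ‖Periodic.qParam 1 w‖ = Real.exp (-2 * π * w.im) := by
  rw [Periodic.norm_qParam, div_one]

/-- a uniform bound on a half plane -/
lemma HQ.bound (ha : HQ F a) (z : ℍ) (m : ℕ) (w : ℂ) (hw : z.im < w.im) :
    ‖a.coeff m * Periodic.qParam 1 w ^ m‖ ≤ ‖a.coeff m • Periodic.qParam 1 z ^ m‖ := by
  rw [norm_smul, norm_mul, norm_pow, norm_pow, qp_norm, qp_norm]
  refine mul_le_mul_of_nonneg_left ?_ (norm_nonneg _)
  refine pow_le_pow_left₀ (Real.exp_pos _).le ?_ m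
  rw [Real.exp_le_exp]
  have h1 : z.im = (z : ℂ).im := rfl
  rw [h1] at hw
  nlinarith [Real.pi_pos]

lemma half_im (z : ℍ) : 0 < (Complex.I * (z.im / 2 : ℝ) : ℂ).im := by
  have := z.im_pos
  simp
  linarith

/-- the point `i Im(z)/2` -/
def hf (z : ℍ) : ℍ := ⟨Complex.I * (z.im / 2 : ℝ), half_im z⟩

lemma hf_im (z : ℍ) : (hf z).im = z.im / 2 := by
  change (Complex.I * (z.im / 2 : ℝ) : ℂ).im = _
  simp

/-- the open half plane around `z` -/
lemma isOpen_U (z : ℍ) : IsOpen {w : ℂ | (hf z).im < w.im} :=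
  isOpen_lt continuous_const Complex.continuous_im

lemma mem_U (z : ℍ) : (z : ℂ) ∈ {w : ℂ | (hf z).im < w.im} := by
  change (hf z).im < (z : ℂ).im
  rw [hf_im]
  have := z.im_pos
  change z.im / 2 < z.im
  linarith

lemma qp_diff (c : ℂ) (m : ℕ) (w : ℂ) :
    HasDerivAt (fun w => c * Periodic.qParam 1 w ^ m)
      (2 * π * I * ((m : ℂ) * c * Periodic.qParam 1 w ^ m)) w := by
  have h1 : HasDerivAt (fun w : ℂ => Periodic.qParam 1 w)
      (Periodic.qParam 1 w * (2 * π * I)) w := by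
    unfold Periodic.qParam
    have h2 : HasDerivAt (fun w : ℂ => 2 * π * I * w / ((1 : ℝ) : ℂ)) (2 * π * I) w := by
      have h3 := ((hasDerivAt_id w).const_mul (2 * (π : ℂ) * I)).div_const ((1 : ℝ) : ℂ)
      simpa using h3
    exact h2.cexp
  rcases m with _ | m
  · simp only [pow_zero, Nat.cast_zero, zero_mul, mul_zero]
    exact hasDerivAt_const w _
  · have h4 := (h1.fun_pow (m + 1)).const_mul c
    refine h4.congr_deriv ?_
    rw [Nat.add_sub_cancel, pow_succ]
    ring

lemma HQ.eq_tsum (ha : HQ F a) {w : ℂ} (hw : 0 < w.im) :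
    (F ∘ ofComplex) w = ∑' m, a.coeff m * Periodic.qParam 1 w ^ m := by
  rw [Function.comp_apply, ofComplex_apply_of_im_pos hw]
  exact ((ha ⟨w, hw⟩).tsum_eq).symm

theorem HQ.mdiff (ha : HQ F a) : MDiff F := by
  rw [UpperHalfPlane.mdifferentiable_iff]
  intro w hw
  have hw' : 0 < w.im := hw
  set z : ℍ := ⟨w, hw'⟩
  have h1 := differentiableOn_tsum_of_summable_norm (F := fun m w => a.coeff m *
    Periodic.qParam 1 w ^ m) (ha.sumN (hf z)) (fun m w _ =>
      (qp_diff (a.coeff m) m w).differentiableAt.differentiableWithinAt) (isOpen_U z)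
      (fun m w hw => ha.bound (hf z) m w hw)
  have h2 : DifferentiableAt ℂ (fun w => ∑' m, a.coeff m * Periodic.qParam 1 w ^ m) w :=
    (h1 w (mem_U z)).differentiableAt ((isOpen_U z).mem_nhds (mem_U z))
  refine (h2.congr_of_eventuallyEq ?_).differentiableWithinAt
  filter_upwards [(isOpen_U z).mem_nhds (mem_U z)] with v hv
  have hv' : 0 < v.im := lt_trans (by rw [hf_im]; have := z.im_pos; linarith) hv
  exact ha.eq_tsum hv'

/-- the derivative -/
theorem HQ.der (ha : HQ F a) : HQ (Derivative.normalizedDerivOfComplex F) (th a) := by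
  intro z
  have h1 := hasSum_deriv_of_summable_norm (F := fun m w => a.coeff m *
    Periodic.qParam 1 w ^ m) (ha.sumN (hf z)) (fun m w _ =>
      (qp_diff (a.coeff m) m w).differentiableAt.differentiableWithinAt) (isOpen_U z)
      (fun m w hw => ha.bound (hf z) m w hw) (mem_U z)
  have h2 : deriv (F ∘ ofComplex) z = deriv (fun w => ∑' m, a.coeff m *
      Periodic.qParam 1 w ^ m) z := by
    apply Filter.EventuallyEq.deriv_eq
    filter_upwards [(isOpen_U z).mem_nhds (mem_U z)] with v hv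
    have hv' : 0 < v.im := lt_trans (by rw [hf_im]; have := z.im_pos; linarith) hv
    exact ha.eq_tsum hv'
  rw [← h2] at h1
  have h3 := h1.mul_left (2 * (π : ℂ) * I)⁻¹
  unfold Derivative.normalizedDerivOfComplex
  have h4 : (fun m => (th a).coeff m • Periodic.qParam 1 z ^ m) = fun m =>
      (2 * (π : ℂ) * I)⁻¹ * deriv (fun w => a.coeff m * Periodic.qParam 1 w ^ m) z := by
    funext m
    rw [(qp_diff (a.coeff m) m z).deriv, ← mul_assoc,
      inv_mul_cancel₀ Complex.two_pi_I_ne_zero, one_mul, smul_eq_mul]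
    unfold th
    rw [PowerSeries.coeff_mk]
  rw [h4]
  exact h3

end der

/-- a function given by a `q`-series is invariant under the translation -/
theorem HQ.T_inv {F : ℍ → ℂ} {a : PowerSeries ℂ} (ha : HQ F a) (k : ℤ) :
    F ∣[k] ModularGroup.T = F := by
  ext z
  rw [ModularForm.SL_slash_apply, denom, modular_T_smul, ModularGroup.T]
  have h1 : F ((1 : ℝ) +ᵥ z) = F z := by
    have h2 := ha ((1 : ℝ) +ᵥ z)
    have h3 : Periodic.qParam 1 (((1 : ℝ) +ᵥ z : ℍ) : ℂ) = Periodic.qParam 1 z := by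
      unfold Periodic.qParam
      rw [UpperHalfPlane.coe_vadd]
      have h4 : 2 * (π : ℂ) * I * (((1 : ℝ) : ℂ) + z) / ((1 : ℝ) : ℂ) =
          2 * π * I * z / ((1 : ℝ) : ℂ) + 2 * π * I := by
        push_cast
        ring
      rw [h4, Complex.exp_add, Complex.exp_two_pi_mul_I, mul_one]
    rw [h3] at h2
    exact h2.unique (ha z)
  simp [h1]

/-- a modular form of level one from a `q`-series and the invariance under `S` -/
def HQ.toMF {F : ℍ → ℂ} {a : PowerSeries ℂ} (ha : HQ F a) (k : ℤ)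
    (hS : F ∣[k] ModularGroup.S = F) : ModularForm 𝒮ℒ k where
  toFun := F
  slash_action_eq' A hA := by
    obtain ⟨A, rfl⟩ := hA
    exact SlashInvariantForm.slash_action_generators_SL2Z hS (ha.T_inv k) A
  holo' := ha.mdiff
  bdd_at_cusps' hc := by
    rw [Subgroup.IsArithmetic.isCusp_iff_isCusp_SL2Z] at hc
    rw [OnePoint.isBoundedAt_iff_forall_SL2Z hc]
    intro γ _
    rw [SlashInvariantForm.slash_action_generators_SL2Z hS (ha.T_inv k)]
    exact ha.bdd

theorem HQ.coe_toMF {F : ℍ → ℂ} {a : PowerSeries ℂ} (ha : HQ F a) (k : ℤ)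
    (hS : F ∣[k] ModularGroup.S = F) (τ : ℍ) : ha.toMF k hS τ = F τ := rfl

theorem HQ.q_toMF {F : ℍ → ℂ} {a : PowerSeries ℂ} (ha : HQ F a) (k : ℤ)
    (hS : F ∣[k] ModularGroup.S = F) : qExpansion 1 (ha.toMF k hS) = a :=
  (HQ.of_mf (ha.toMF k hS)).unique (ha.congr fun τ => (ha.coe_toMF k hS τ).symm)

end Pool.Agent.Q237.SX
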