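import Mathlib

/-!
# Theta series as power series

`TS e c` is the power series `∑_i c(i) X^{e(i)}`, where `e : ι → ℤ` has finite fibres.
-/

set_option autoImplicit false

namespace Q279.QS

open PowerSeries

variable {R : Type*} [CommRing R] {ι κ : Type*}

/-- finite fibres -/
abbrev FF (e : ι → ℤ) : Prop := ∀ n : ℤ, {i | e i = n}.Finite

open Classical in
/-- `∑_i c(i) X^{e(i)}` -/
noncomputable def TS (e : ι → ℤ) (c : ι → R) : R⟦X⟧ :=
  mk fun n => ∑ᶠ i, if e i = (n : ℤ) then c i else 0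

open Classical in
theorem coeff_TS (e : ι → ℤ) (c : ι → R) (n : ℕ) :
    coeff n (TS e c) = ∑ᶠ i, if e i = (n : ℤ) then c i else 0 := by
  rw [TS, coeff_mk]

theorem coeff_TS' {e : ι → ℤ} (he : FF e) (c : ι → R) (n : ℕ) :
    coeff n (TS e c) = ∑ i ∈ (he n).toFinset, c i := by
  classical
  rw [coeff_TS, finsum_eq_sum_of_support_subset (s := (he n).toFinset)]
  · refine Finset.sum_congr rfl fun i hi => ?_
    rw [Set.Finite.mem_toFinset] at hi
    have hi' : e i = n := hi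
    rw [if_pos hi']
  · intro i hi
    rw [Function.mem_support] at hi
    rw [Set.Finite.coe_toFinset]
    by_contra h
    exact hi (if_neg h)

theorem coeff_TS_of_zero {e : ι → ℤ} {c : ι → R} {n : ℕ} (h : ∀ i, e i = n → c i = 0) :
    coeff n (TS e c) = 0 := by
  classical
  rw [coeff_TS]
  refine finsum_eq_zero_of_forall_eq_zero fun i => ?_
  split_ifs with h1
  · exact h i h1
  · rfl

theorem TS_congr {e e' : ι → ℤ} {c c' : ι → R} (h1 : ∀ i, e i = e' i) (h2 : ∀ i, c i = c' i) :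
    TS e c = TS e' c' := by
  rw [funext h1, funext h2]

theorem TS_equiv (σ : κ ≃ ι) (e : ι → ℤ) (c : ι → R) :
    TS (fun k => e (σ k)) (fun k => c (σ k)) = TS e c := by
  classical
  ext n
  rw [coeff_TS, coeff_TS]
  exact finsum_comp_equiv σ (f := fun i => if e i = (n : ℤ) then c i else 0)

theorem TS_add {e : ι → ℤ} (he : FF e) (c c' : ι → R) :
    TS e (fun i => c i + c' i) = TS e c + TS e c' := by
  ext n
  rw [map_add, coeff_TS' he, coeff_TS' he, coeff_TS' he, Finset.sum_add_distrib]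

theorem TS_neg (e : ι → ℤ) (c : ι → R) : TS e (fun i => - c i) = - TS e c := by
  classical
  ext n
  rw [map_neg, coeff_TS, coeff_TS, ← finsum_neg_distrib]
  refine finsum_congr fun i => ?_
  split_ifs <;> simp

theorem TS_sub {e : ι → ℤ} (he : FF e) (c c' : ι → R) :
    TS e (fun i => c i - c' i) = TS e c - TS e c' := by
  simp only [sub_eq_add_neg]
  rw [TS_add he, TS_neg]

theorem TS_smul (a : R) {e : ι → ℤ} (he : FF e) (c : ι → R) :
    TS e (fun i => a * c i) = C a * TS e c := by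
  classical
  ext n
  rw [coeff_C_mul, coeff_TS' he, coeff_TS' he, Finset.mul_sum]

theorem FF.add {e : ι → ℤ} {e' : κ → ℤ} (he : FF e) (he' : FF e') (h0 : ∀ i, 0 ≤ e i)
    (h0' : ∀ i, 0 ≤ e' i) : FF (fun p : ι × κ => e p.1 + e' p.2) := by
  intro n
  have h1 : {p : ι × κ | e p.1 + e' p.2 = n} ⊆
      ⋃ a ∈ Set.Icc (0 : ℤ) n, ({i | e i = a} ×ˢ {j | e' j = n - a}) := by
    intro p hp
    simp only [Set.mem_ofPred_eq] at hp
    simp only [Set.mem_iUnion, Set.mem_prod, Set.mem_ofPred_eq, Set.mem_Icc]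
    refine ⟨e p.1, ⟨h0 _, ?_⟩, rfl, by linarith⟩
    have := h0' p.2
    linarith
  exact ((Set.finite_Icc (0 : ℤ) n).biUnion fun a _ => (he a).prod (he' (n - a))).subset h1

theorem TS_mul {e : ι → ℤ} {e' : κ → ℤ} (he : FF e) (he' : FF e') (h0 : ∀ i, 0 ≤ e i)
    (h0' : ∀ i, 0 ≤ e' i) (c : ι → R) (c' : κ → R) :
    TS e c * TS e' c' = TS (fun p : ι × κ => e p.1 + e' p.2) (fun p => c p.1 * c' p.2) := by
  classical
  ext n
  rw [coeff_mul, coeff_TS' (he.add he' h0 h0')]
  simp only [coeff_TS' he, coeff_TS' he', Finset.sum_mul_sum, ← Finset.sum_product']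
  rw [Finset.sum_sigma']
  refine Finset.sum_bij' (fun x _ => x.2) (fun p _ => ⟨((e p.1).toNat, (e' p.2).toNat), p⟩)
    ?_ ?_ ?_ ?_ ?_
  · rintro ⟨⟨a, b⟩, ⟨i, j⟩⟩ hx
    simp only [Finset.mem_sigma, Finset.HasAntidiagonal.mem_antidiagonal, Finset.mem_product,
      Set.Finite.mem_toFinset, Set.mem_ofPred_eq] at hx ⊢
    obtain ⟨h1, h2, h3⟩ := hx
    rw [h2, h3, ← h1]
    push_cast
    ring
  · rintro ⟨i, j⟩ hx
    simp only [Finset.mem_sigma, Finset.HasAntidiagonal.mem_antidiagonal, Finset.mem_product,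
      Set.Finite.mem_toFinset, Set.mem_ofPred_eq] at hx ⊢
    have h1 := h0 i
    have h2 := h0' j
    refine ⟨?_, ?_, ?_⟩ <;> omega
  · rintro ⟨⟨a, b⟩, ⟨i, j⟩⟩ hx
    simp only [Finset.mem_sigma, Finset.HasAntidiagonal.mem_antidiagonal, Finset.mem_product,
      Set.Finite.mem_toFinset, Set.mem_ofPred_eq] at hx ⊢
    obtain ⟨h1, h2, h3⟩ := hx
    simp [h2, h3]
  · rintro ⟨i, j⟩ _
    rfl
  · rintro ⟨⟨a, b⟩, ⟨i, j⟩⟩ _
    rfl

theorem TS_sum_type {e : ι ⊕ κ → ℤ} (he : FF e) (c : ι ⊕ κ → R) :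
    TS e c = TS (fun i => e (Sum.inl i)) (fun i => c (Sum.inl i)) +
      TS (fun j => e (Sum.inr j)) (fun j => c (Sum.inr j)) := by
  classical
  have h1 : FF fun i => e (Sum.inl i) := fun n =>
    (he n).preimage (Sum.inl_injective.injOn) |>.subset fun i hi => hi
  have h2 : FF fun j => e (Sum.inr j) := fun n =>
    (he n).preimage (Sum.inr_injective.injOn) |>.subset fun i hi => hi
  ext n
  rw [map_add, coeff_TS' he, coeff_TS' h1, coeff_TS' h2]
  have h3 : (he n).toFinset = (h1 n).toFinset.disjSum (h2 n).toFinset := by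
    ext x
    rcases x with i | j <;> simp
  rw [h3, Finset.sum_disjSum]

/-- splitting a sum over `ℤ` -/
theorem TS_int {e : ℤ → ℤ} (he : FF e) (c : ℤ → R) :
    TS e c = TS (fun n : ℕ => e n) (fun n : ℕ => c n) +
      TS (fun n : ℕ => e (-(n + 1))) (fun n : ℕ => c (-(n + 1))) := by
  rw [← TS_equiv Equiv.intEquivNatSumNat.symm e c, TS_sum_type]
  · congr 1
  · intro n
    exact (he n).preimage (Equiv.intEquivNatSumNat.symm.injective.injOn) |>.subset fun i hi => hi

theorem FF_nat {e : ℕ → ℤ} (he : ∀ n : ℕ, (n : ℤ) ≤ e n) : FF e := fun m =>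
  (Set.finite_Iic m.toNat).subset fun n hn => by
    have h1 := he n
    have h2 : e n = m := hn
    rw [Set.mem_Iic]
    omega

/-- coefficients of a series over `ℕ` -/
theorem coeff_TS_nat {e : ℕ → ℤ} (he : ∀ n : ℕ, (n : ℤ) ≤ e n) (c : ℕ → R) {m K : ℕ} (hm : m < K) :
    coeff m (TS e c) = ∑ n ∈ Finset.range K, if e n = (m : ℤ) then c n else 0 := by
  rw [coeff_TS' (FF_nat he), ← Finset.sum_filter]
  refine Finset.sum_congr ?_ fun _ _ => rfl
  ext n
  simp only [Set.Finite.mem_toFinset, Set.mem_ofPred_eq, Finset.mem_filter, Finset.mem_range]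
  constructor
  · intro h
    have := he n
    exact ⟨by omega, h⟩
  · exact fun h => h.2

theorem map_TS {S : Type*} [CommRing S] (φ : R →+* S) {e : ι → ℤ} (he : FF e) (c : ι → R) :
    PowerSeries.map φ (TS e c) = TS e (fun i => φ (c i)) := by
  ext n
  rw [coeff_map, coeff_TS' he, coeff_TS' he, map_sum]

end Q279.QS
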