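import Pool.Agent.H47.Fad.Lib.QCore
import Pool.Agent.H47.Fad.Lib.TS

/-!
# The Jacobi triple product

For `a, b ≥ 1`, `ε = ±1`, `c = a + b`:
`∏_{i<N} (1 - ε X^{ci+a}) (1 - ε X^{ci+b}) (1 - X^{c(i+1)})` agrees with
`∑_{n ∈ ℤ} (-ε)^n X^{a n + c n(n-1)/2}` up to `X^N`.
-/

set_option autoImplicit false

namespace Q279.QS

open Finset Pool.Agent.H464R3.J

theorem two_c2 (m : ℕ) : 2 * ((m.choose 2 : ℕ) : ℤ) = m * (m - 1) := by
  rcases m with _ | m
  · simp
  · induction m with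
    | zero => simp
    | succ m ih =>
      rw [Nat.choose_succ_succ' (m + 1) 1, Nat.choose_one_right]
      push_cast at ih ⊢
      linarith

section field

variable {F : Type*} [Field F]

/-- the finite Jacobi triple product -/
theorem fin_jtp {Q z y : F} (hQ : Q ≠ 0) (hzy : z * y = Q) (N : ℕ) (hg : Gen Q (2 * N)) :
    (∏ i ∈ range N, (1 - z * Q ^ i)) * (∏ i ∈ range N, (1 - y * Q ^ i)) =
      ∑ n ∈ range (N + 1), (-1) ^ n * z ^ n * Q ^ (n.choose 2) *
        (f Q (2 * N) / (f Q (N + n) * f Q (N - n))) +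
      ∑ m ∈ range N, (-1) ^ (m + 1) * y ^ (m + 1) * Q ^ ((m + 1).choose 2) *
        (f Q (2 * N) / (f Q (N + (m + 1)) * f Q (N - (m + 1)))) := by
  have hy0 : y ≠ 0 := fun h => hQ (by rw [← hzy, h, mul_zero])
  have hQN : Q ^ N ≠ 0 := pow_ne_zero _ hQ
  set z0 : F := z * (Q ^ N)⁻¹ with hz0
  have h := qbinom (q := Q) z0 (2 * N) hg
  set κ : F := (-1) ^ N * y ^ N * Q ^ (N.choose 2) with hκ
  have hL : κ * ∏ j ∈ range (2 * N), (1 - z0 * Q ^ j) =
      (∏ i ∈ range N, (1 - z * Q ^ i)) * (∏ i ∈ range N, (1 - y * Q ^ i)) := by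
    rw [two_mul, Finset.prod_range_add]
    have e1 : ∏ i ∈ range N, (1 - z0 * Q ^ (N + i)) = ∏ i ∈ range N, (1 - z * Q ^ i) := by
      refine Finset.prod_congr rfl fun i _ => ?_
      rw [hz0, pow_add]
      field_simp
    have e2 : κ * ∏ j ∈ range N, (1 - z0 * Q ^ j) = ∏ i ∈ range N, (1 - y * Q ^ i) := by
      have e3 : κ = ∏ j ∈ range N, (-(y * Q ^ j)) := by
        rw [hκ, Finset.prod_neg, Finset.prod_mul_distrib, Finset.prod_const, Finset.card_range,
          Finset.prod_pow_eq_pow_sum]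
        have : ∑ i ∈ range N, i = N.choose 2 := by
          rw [Finset.sum_range_id, Nat.choose_two_right]
        rw [this]
        ring
      rw [e3, ← Finset.prod_range_reflect (fun j => 1 - z0 * Q ^ j) N, ← Finset.prod_mul_distrib]
      refine Finset.prod_congr rfl fun j hj => ?_
      have hjN : j < N := Finset.mem_range.1 hj
      obtain ⟨r, hr⟩ : ∃ r, N = j + r + 1 := ⟨N - 1 - j, by omega⟩
      have e4 : z0 * Q ^ (N - 1 - j) * (y * Q ^ j) = 1 := by
        have : N - 1 - j = r := by omega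
        rw [this, hz0, hr]
        calc z * (Q ^ (j + r + 1))⁻¹ * Q ^ r * (y * Q ^ j) =
            (z * y) * (Q ^ (j + r)) * (Q ^ (j + r + 1))⁻¹ := by rw [pow_add Q j r]; ring
          _ = 1 := by
            rw [hzy, ← pow_succ', mul_inv_cancel₀ (pow_ne_zero _ hQ)]
      linear_combination e4
    rw [e1, ← mul_assoc, e2, mul_comm]
  rw [← hL, h, show 2 * N + 1 = N + (N + 1) by ring, Finset.sum_range_add, mul_add, add_comm,
    Finset.mul_sum, Finset.mul_sum]
  congr 1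
  · refine Finset.sum_congr rfl fun n hn => ?_
    have hnN : n ≤ N := Nat.lt_succ_iff.1 (Finset.mem_range.1 hn)
    have e0 : 2 * N - (N + n) = N - n := by omega
    rw [e0, hκ, hz0]
    have hexp : N + N.choose 2 + (N + n).choose 2 = n.choose 2 + N * (N + n) := by
      have h1 := two_c2 N
      have h2 := two_c2 (N + n)
      have h3 := two_c2 n
      zify
      push_cast at h2
      linarith
    have e1 : y ^ N * z ^ (N + n) * (Q ^ (N.choose 2) * Q ^ ((N + n).choose 2)) =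
        z ^ n * Q ^ (n.choose 2) * Q ^ (N * (N + n)) := by
      calc _ = (z * y) ^ N * z ^ n * (Q ^ (N.choose 2) * Q ^ ((N + n).choose 2)) := by
            rw [mul_pow, pow_add z]; ring
        _ = z ^ n * (Q ^ (N + N.choose 2 + (N + n).choose 2)) := by
            rw [hzy, pow_add, pow_add]; ring
        _ = _ := by rw [hexp, pow_add]; ring
    have e2 : (z * (Q ^ N)⁻¹) ^ (N + n) * Q ^ (N * (N + n)) = z ^ (N + n) := by
      rw [mul_pow, mul_assoc, inv_pow, ← pow_mul, inv_mul_cancel₀ (pow_ne_zero _ hQ), mul_one]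
    have e3 : (-1 : F) ^ N * (-1) ^ (N + n) = (-1) ^ n := by
      rw [pow_add, ← mul_assoc, ← mul_pow]; norm_num
    have e4 : y ^ N * (z * (Q ^ N)⁻¹) ^ (N + n) * (Q ^ (N.choose 2) * Q ^ ((N + n).choose 2)) =
        z ^ n * Q ^ (n.choose 2) := by
      refine mul_right_cancel₀ (pow_ne_zero (N * (N + n)) hQ) ?_
      rw [← e1, ← e2]
      ring
    linear_combination (f Q (2 * N) / (f Q (N + n) * f Q (N - n))) * ((-1) ^ N * (-1) ^ (N + n)) * e4
      + (f Q (2 * N) / (f Q (N + n) * f Q (N - n))) * (z ^ n * Q ^ (n.choose 2)) * e3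
  · rw [← Finset.sum_range_reflect]
    refine Finset.sum_congr rfl fun j hj => ?_
    have hjN : j < N := Finset.mem_range.1 hj
    obtain ⟨a, ha⟩ : ∃ a, N = a + (j + 1) := ⟨N - (j + 1), by omega⟩
    have e0 : N - 1 - j = a := by omega
    have e0' : 2 * N - a = N + (j + 1) := by omega
    have e0'' : N - (j + 1) = a := by omega
    rw [e0, e0', e0'', hκ, hz0]
    have hexp : a + N.choose 2 + a.choose 2 = (j + 1).choose 2 + N * a := by
      have h1 := two_c2 N
      have h2 := two_c2 a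
      have h3 := two_c2 (j + 1)
      rw [ha] at h1 ⊢
      zify
      push_cast at h1 h2 h3
      linarith
    have e1 : y ^ N * z ^ a * (Q ^ (N.choose 2) * Q ^ (a.choose 2)) =
        y ^ (j + 1) * Q ^ ((j + 1).choose 2) * Q ^ (N * a) := by
      calc _ = (z * y) ^ a * y ^ (j + 1) * (Q ^ (N.choose 2) * Q ^ (a.choose 2)) := by
            nth_rewrite 1 [ha]
            rw [mul_pow, pow_add y]; ring
        _ = y ^ (j + 1) * (Q ^ (a + N.choose 2 + a.choose 2)) := by
            rw [hzy, pow_add, pow_add]; ring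
        _ = _ := by rw [hexp, pow_add]; ring
    have e2 : (z * (Q ^ N)⁻¹) ^ a * Q ^ (N * a) = z ^ a := by
      rw [mul_pow, mul_assoc, inv_pow, ← pow_mul, inv_mul_cancel₀ (pow_ne_zero _ hQ), mul_one]
    have e3 : (-1 : F) ^ N * (-1) ^ a = (-1) ^ (j + 1) := by
      rw [ha, pow_add, mul_right_comm, ← mul_pow]; norm_num
    have e4 : y ^ N * (z * (Q ^ N)⁻¹) ^ a * (Q ^ (N.choose 2) * Q ^ (a.choose 2)) =
        y ^ (j + 1) * Q ^ ((j + 1).choose 2) := by
      refine mul_right_cancel₀ (pow_ne_zero (N * a) hQ) ?_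
      rw [← e1, ← e2]
      ring
    linear_combination (f Q (2 * N) / (f Q a * f Q (N + (j + 1)))) * ((-1) ^ N * (-1) ^ a) * e4
      + (f Q (2 * N) / (f Q a * f Q (N + (j + 1)))) * (y ^ (j + 1) * Q ^ ((j + 1).choose 2)) * e3

end field

section poly

open Polynomial

/-- `(X^c; X^c)_n` -/
noncomputable def PPc (c n : ℕ) : ℤ[X] := ∏ j ∈ range n, (1 - X ^ (c * (j + 1)))

/-- the correction factor -/
noncomputable def KK (c N n : ℕ) : ℤ[X] := (∏ j ∈ Ico (N - n) N, (1 - X ^ (c * (j + 1)))) *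
  ∏ j ∈ Ico (N + n) (2 * N), (1 - X ^ (c * (j + 1)))

theorem alg_aux {F : Type*} [Field F] (a b u v : F) (ha : a ≠ 0) (hb : b ≠ 0) :
    b * v / (b * a) * (a * u) = u * v := by
  field_simp

theorem poly_jtp (a b : ℕ) (ha : 1 ≤ a) (ε : ℤ) (hε : ε * ε = 1) (N : ℕ) :
    (∏ i ∈ range N, (1 - C ε * X ^ (a + (a + b) * i))) *
      (∏ i ∈ range N, (1 - C ε * X ^ (b + (a + b) * i))) * PPc (a + b) N =
    ∑ n ∈ range (N + 1), C ((-ε) ^ n) * X ^ (a * n + (a + b) * n.choose 2) * KK (a + b) N n +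
      ∑ m ∈ range N, C ((-ε) ^ (m + 1)) * X ^ (b * (m + 1) + (a + b) * (m + 1).choose 2) *
        KK (a + b) N (m + 1) := by
  set c := a + b with hc
  let F := FractionRing ℤ[X]
  have hinj : Function.Injective (algebraMap ℤ[X] F) := IsFractionRing.injective ℤ[X] F
  set q : F := algebraMap ℤ[X] F X with hq
  have hq0 : q ≠ 0 := by
    rw [hq, Ne, map_eq_zero_iff _ hinj]
    exact X_ne_zero
  set e : F := algebraMap ℤ[X] F (C ε) with he
  have hee : e * e = 1 := by
    rw [he, ← map_mul, ← C_mul, hε, map_one, map_one]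
  have hg : ∀ M, Gen (q ^ c) M := by
    intro M j h1 h2
    have h3 : (1 : ℤ[X]) - X ^ (c * j) ≠ 0 := by
      intro h
      have hcj : 0 < c * j := Nat.mul_pos (by omega) (by omega)
      have h4 := congrArg (fun p => Polynomial.coeff p (c * j)) h
      simp only [coeff_sub, coeff_one, coeff_X_pow, if_true, coeff_zero] at h4
      rw [if_neg (by omega)] at h4
      norm_num at h4
    intro h
    apply h3
    apply hinj
    rw [map_sub, map_one, map_pow, map_zero, ← hq, pow_mul]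
    exact h
  have hf : ∀ M, f (q ^ c) M = algebraMap ℤ[X] F (PPc c M) := by
    intro M
    unfold f PPc
    rw [map_prod]
    refine Finset.prod_congr rfl fun j _ => ?_
    rw [map_sub, map_one, map_pow, ← hq, pow_mul]
  have hPne : ∀ M, algebraMap ℤ[X] F (PPc c M) ≠ 0 := fun M => by
    rw [← hf]
    exact (hg M).f_ne le_rfl
  have hzy : (e * q ^ a) * (e * q ^ b) = q ^ c := by
    rw [hc, pow_add]
    linear_combination (q ^ a * q ^ b) * hee
  have hK : ∀ n ≤ N, f (q ^ c) (2 * N) / (f (q ^ c) (N + n) * f (q ^ c) (N - n)) * f (q ^ c) N =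
      algebraMap ℤ[X] F (KK c N n) := by
    intro n hn
    have e1 : PPc c N = PPc c (N - n) * ∏ j ∈ Ico (N - n) N, (1 - X ^ (c * (j + 1))) := by
      unfold PPc
      rw [Finset.prod_range_mul_prod_Ico _ (Nat.sub_le _ _)]
    have e2 : PPc c (2 * N) = PPc c (N + n) * ∏ j ∈ Ico (N + n) (2 * N), (1 - X ^ (c * (j + 1))) := by
      unfold PPc
      rw [Finset.prod_range_mul_prod_Ico _ (by omega)]
    have h3 := hPne (N - n)
    have h4 := hPne (N + n)
    rw [hf, hf, hf, hf, KK, map_mul]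
    have e1' := congrArg (algebraMap ℤ[X] F) e1
    have e2' := congrArg (algebraMap ℤ[X] F) e2
    rw [map_mul] at e1' e2'
    rw [e1', e2']
    exact alg_aux _ _ _ _ h3 h4
  have h := fin_jtp (Q := q ^ c) (z := e * q ^ a) (y := e * q ^ b) (pow_ne_zero _ hq0) hzy N (hg _)
  apply hinj
  have hpow : ∀ d i : ℕ, algebraMap ℤ[X] F (1 - C ε * X ^ (d + c * i)) = 1 - e * q ^ d * (q ^ c) ^ i := by
    intro d i
    rw [map_sub, map_one, map_mul, map_pow, ← hq, ← he, pow_add, pow_mul]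
    ring
  rw [map_mul, map_mul, map_prod, map_prod]
  simp only [hpow]
  rw [h, ← hf, add_mul, Finset.sum_mul, Finset.sum_mul, map_add, map_sum, map_sum]
  have hterm : ∀ d n : ℕ, (-1 : F) ^ n * (e * q ^ d) ^ n * (q ^ c) ^ (n.choose 2) =
      algebraMap ℤ[X] F (C ((-ε) ^ n) * X ^ (d * n + c * n.choose 2)) := by
    intro d n
    rw [C_pow, map_mul, map_pow, map_pow, ← hq, C_neg, map_neg, ← he, ← pow_mul, mul_pow,
      neg_pow e, pow_add, ← pow_mul]
    ring
  congr 1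
  · refine Finset.sum_congr rfl fun n hn => ?_
    have hnN : n ≤ N := Nat.lt_succ_iff.1 (Finset.mem_range.1 hn)
    rw [map_mul, ← hK n hnN, ← hterm]
    ring
  · refine Finset.sum_congr rfl fun m hm => ?_
    have hmN : m + 1 ≤ N := Finset.mem_range.1 hm
    rw [map_mul, ← hK (m + 1) hmN, ← hterm]
    ring

theorem dvd_prod_sub_one (c d : ℕ) (s : Finset ℕ) (h : ∀ j ∈ s, d ≤ c * (j + 1)) :
    (X ^ d : ℤ[X]) ∣ ∏ j ∈ s, (1 - X ^ (c * (j + 1))) - 1 := by
  classical
  induction s using Finset.induction_on with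
  | empty => simp
  | insert b s hb ih =>
    rw [Finset.prod_insert hb]
    have h1 := ih fun j hj => h j (Finset.mem_insert_of_mem hj)
    have h2 : (X ^ d : ℤ[X]) ∣ X ^ (c * (b + 1)) :=
      pow_dvd_pow _ (h b (Finset.mem_insert_self _ _))
    have e : (1 - X ^ (c * (b + 1))) * ∏ j ∈ s, (1 - X ^ (c * (j + 1))) - 1 =
        (∏ j ∈ s, (1 - X ^ (c * (j + 1))) - 1) -
          X ^ (c * (b + 1)) * ∏ j ∈ s, (1 - X ^ (c * (j + 1)) : ℤ[X]) := by
      ring
    rw [e]
    exact dvd_sub h1 (h2.mul_right _)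

theorem dvd_KK (c N n : ℕ) (hc : 1 ≤ c) (hn : n ≤ N) :
    (X ^ (N - n + 1) : ℤ[X]) ∣ KK c N n - 1 := by
  unfold KK
  set U : ℤ[X] := ∏ j ∈ Ico (N - n) N, (1 - X ^ (c * (j + 1))) with hU
  set V : ℤ[X] := ∏ j ∈ Ico (N + n) (2 * N), (1 - X ^ (c * (j + 1))) with hV
  have h1 : (X ^ (N - n + 1) : ℤ[X]) ∣ U - 1 :=
    dvd_prod_sub_one _ _ _ fun j hj => by
      have := (Finset.mem_Ico.1 hj).1
      nlinarith
  have h2 : (X ^ (N - n + 1) : ℤ[X]) ∣ V - 1 :=
    dvd_prod_sub_one _ _ _ fun j hj => by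
      have := (Finset.mem_Ico.1 hj).1
      have h3 : N - n + 1 ≤ j + 1 := by omega
      nlinarith
  have e : U * V - 1 = (U - 1) * V + (V - 1) := by ring
  rw [e]
  exact dvd_add (h1.mul_right _) h2

theorem le_expo (a b n : ℕ) (ha : 1 ≤ a) : n ≤ a * n + (a + b) * n.choose 2 := by
  nlinarith [Nat.zero_le ((a + b) * n.choose 2)]

/-- the triple product modulo `X^{N+1}` -/
theorem jtp_dvd (a b : ℕ) (ha : 1 ≤ a) (hb : 1 ≤ b) (ε : ℤ) (hε : ε * ε = 1) (N : ℕ) :
    (X ^ (N + 1) : ℤ[X]) ∣ (∏ i ∈ range N, (1 - C ε * X ^ (a + (a + b) * i))) *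
      (∏ i ∈ range N, (1 - C ε * X ^ (b + (a + b) * i))) * PPc (a + b) N -
    (∑ n ∈ range (N + 1), C ((-ε) ^ n) * X ^ (a * n + (a + b) * n.choose 2) +
      ∑ m ∈ range N, C ((-ε) ^ (m + 1)) * X ^ (b * (m + 1) + (a + b) * (m + 1).choose 2)) := by
  rw [poly_jtp a b ha ε hε N, add_sub_add_comm, ← Finset.sum_sub_distrib,
    ← Finset.sum_sub_distrib]
  have key : ∀ (k : ℤ) (E n : ℕ), n ≤ N → n ≤ E →
      (X ^ (N + 1) : ℤ[X]) ∣ C k * X ^ E * KK (a + b) N n - C k * X ^ E := by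
    intro k E n hn hE
    have h1 := dvd_KK (a + b) N n (by omega) hn
    have h2 : (X ^ (N + 1) : ℤ[X]) ∣ X ^ E * X ^ (N - n + 1) := by
      rw [← pow_add]
      exact pow_dvd_pow _ (by omega)
    have h3 : (X ^ (N + 1) : ℤ[X]) ∣ X ^ E * (KK (a + b) N n - 1) :=
      h2.trans (mul_dvd_mul_left _ h1)
    have e : C k * X ^ E * KK (a + b) N n - C k * X ^ E =
        C k * (X ^ E * (KK (a + b) N n - 1)) := by ring
    rw [e]
    exact h3.mul_left _
  refine dvd_add (Finset.dvd_sum fun n hn => ?_) (Finset.dvd_sum fun m hm => ?_)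
  · exact key _ _ n (Nat.lt_succ_iff.1 (Finset.mem_range.1 hn)) (le_expo a b n ha)
  · refine key _ _ (m + 1) (Finset.mem_range.1 hm) ?_
    have := le_expo b a (m + 1) hb
    rwa [add_comm b a] at this

end poly

end Q279.QS
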