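import Pool.Agent.H47.Fad.Lib.QCore

/-!
# Z700-JAC (job 1789, helper246 for helper700): the finite form of Jacobi's identity
-/

set_option autoImplicit false

namespace Pool.Agent.Y246.Z700

open Finset Pool.Agent.H464R3.J

/-- triangular numbers -/
theorem two_tri (m : ℕ) : 2 * (m + 1).choose 2 = (m + 1) * m := by
  induction m with
  | zero => rfl
  | succ m ih =>
    rw [Nat.choose_succ_succ' (m + 1) 1, Nat.choose_one_right, mul_add, ih]
    ring

theorem tri_up (n k : ℕ) : (n + 1 + k).choose 2 + (n + 1).choose 2 =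
    n * (n + 1 + k) + (k + 1).choose 2 := by
  have h1 := two_tri (n + k)
  have h2 := two_tri n
  have h3 := two_tri k
  rw [show n + 1 + k = n + k + 1 by ring]
  nlinarith

theorem tri_dn (n k : ℕ) (h : k ≤ n) : (n - k).choose 2 + (n + 1).choose 2 =
    n * (n - k) + (k + 1).choose 2 := by
  obtain ⟨r, rfl⟩ := Nat.exists_eq_add_of_le h
  rw [Nat.add_sub_cancel_left]
  have h2 := two_tri (k + r)
  have h3 := two_tri k
  rcases Nat.eq_zero_or_pos r with rfl | hr
  · simp only [add_zero, mul_zero, zero_add]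
    have : Nat.choose 0 2 = 0 := rfl
    omega
  · obtain ⟨s, rfl⟩ : ∃ s, r = s + 1 := ⟨r - 1, by omega⟩
    have h1 := two_tri s
    nlinarith

theorem k_le_tri (k : ℕ) : k ≤ (k + 1).choose 2 := by
  have h := two_tri k
  rcases Nat.eq_zero_or_pos k with rfl | hk
  · simp
  · nlinarith

section field

variable {F : Type*} [Field F]

theorem prod_dn {q : F} (hq : q ≠ 0) (n : ℕ) :
    (∏ j ∈ range n, (1 - q ^ j * (q ^ n)⁻¹)) * q ^ ((n + 1).choose 2) = (-1) ^ n * f q n := by
  induction n with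
  | zero => simp
  | succ n ih =>
    have h1 : ∀ j ∈ range n, (1 - q ^ (j + 1) * (q ^ (n + 1))⁻¹) = 1 - q ^ j * (q ^ n)⁻¹ := by
      intro j _
      rw [pow_succ, pow_succ]
      field_simp
    rw [Finset.prod_range_succ', Finset.prod_congr rfl h1,
      Nat.choose_succ_succ' (n + 1) 1, Nat.choose_one_right, f_succ, pow_add, pow_succ (-1 : F)]
    have h2 : (1 - q ^ 0 * (q ^ (n + 1))⁻¹) * q ^ (n + 1) = -(1 - q ^ (n + 1)) := by
      rw [pow_zero]
      field_simp
      ring
    calc _ = ((∏ j ∈ range n, (1 - q ^ j * (q ^ n)⁻¹)) * q ^ ((n + 1).choose 2)) *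
          ((1 - q ^ 0 * (q ^ (n + 1))⁻¹) * q ^ (n + 1)) := by ring
      _ = _ := by
        rw [ih, h2]
        ring

theorem prod_up {q : F} (hq : q ≠ 0) (n : ℕ) :
    ∏ i ∈ range n, (1 - q ^ (n + (i + 1)) * (q ^ n)⁻¹) = f q n := by
  unfold f
  refine Finset.prod_congr rfl fun i _ => ?_
  rw [pow_add]
  field_simp

/-- the derivative of the `q`-binomial theorem at the middle zero -/
theorem euler [Infinite F] {q : F} (hq : q ≠ 0) (n : ℕ) (hg : Gen q (2 * n + 1)) :
    (-1) ^ (n + 1) * (f q n) ^ 2 = q ^ ((n + 1).choose 2) *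
      ∑ a ∈ range (2 * n + 1 + 1), (f q (2 * n + 1) / (f q a * f q (2 * n + 1 - a)) * (-1) ^ a *
        q ^ (a.choose 2)) * a * ((q ^ n)⁻¹) ^ a := by
  set z0 : F := (q ^ n)⁻¹ with hz0
  set cc : ℕ → F := fun a => f q (2 * n + 1) / (f q a * f q (2 * n + 1 - a)) * (-1) ^ a *
        q ^ (a.choose 2) with hcc
  -- the polynomial identity
  set A : Polynomial F := ∏ j ∈ range n, (1 - Polynomial.C (q ^ j) * Polynomial.X) with hA
  set B : Polynomial F := ∏ i ∈ range n, (1 - Polynomial.C (q ^ (n + (i + 1))) * Polynomial.X)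
    with hB
  set r : Polynomial F := ∑ a ∈ range (2 * n + 1 + 1), Polynomial.C (cc a) * Polynomial.X ^ a
    with hr
  have hpoly : A * B * (1 - Polynomial.C (q ^ n) * Polynomial.X) = r := by
    refine Polynomial.funext fun z => ?_
    have h1 := qbinom (q := q) z (2 * n + 1) hg
    rw [show 2 * n + 1 = n + (n + 1) by ring, Finset.prod_range_add, Finset.prod_range_succ'] at h1
    rw [hr, Polynomial.eval_finsetSum]
    simp only [Polynomial.eval_mul, Polynomial.eval_C, Polynomial.eval_pow, Polynomial.eval_X,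
      Polynomial.eval_sub, Polynomial.eval_one, hA, hB, Polynomial.eval_prod]
    rw [show 2 * n + 1 + 1 = n + (n + 1) + 1 by ring]
    simp only [hcc]
    rw [show 2 * n + 1 = n + (n + 1) by ring, ← h1]
    simp only [add_zero, mul_comm z]
    ring
  have hder : Polynomial.eval z0 (Polynomial.derivative
      (A * B * (1 - Polynomial.C (q ^ n) * Polynomial.X))) =
      Polynomial.eval z0 (Polynomial.derivative r) := by rw [hpoly]
  have hl0 : Polynomial.eval z0 (1 - Polynomial.C (q ^ n) * Polynomial.X) = 0 := by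
    simp only [Polynomial.eval_sub, Polynomial.eval_one, Polynomial.eval_mul, Polynomial.eval_C,
      Polynomial.eval_X, hz0]
    rw [mul_inv_cancel₀ (pow_ne_zero _ hq), sub_self]
  rw [Polynomial.derivative_mul, Polynomial.eval_add, Polynomial.eval_mul, hl0, mul_zero, zero_add,
    Polynomial.eval_mul, Polynomial.eval_mul] at hder
  have hd1 : Polynomial.eval z0 (Polynomial.derivative
      (1 - Polynomial.C (q ^ n) * Polynomial.X)) = -(q ^ n) := by
    rw [Polynomial.derivative_sub, Polynomial.derivative_one, Polynomial.derivative_C_mul,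
      Polynomial.derivative_X, mul_one, zero_sub, Polynomial.eval_neg, Polynomial.eval_C]
  have hAz : Polynomial.eval z0 A * q ^ ((n + 1).choose 2) = (-1) ^ n * f q n := by
    rw [← prod_dn hq n, hA, Polynomial.eval_prod]
    simp [hz0]
  have hBz : Polynomial.eval z0 B = f q n := by
    rw [← prod_up hq n, hB, Polynomial.eval_prod]
    simp [hz0]
  rw [hd1, hBz] at hder
  have hrz : Polynomial.eval z0 (Polynomial.derivative r) * z0 =
      ∑ a ∈ range (2 * n + 1 + 1), cc a * a * z0 ^ a := by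
    rw [hr, Polynomial.derivative_sum, Polynomial.eval_finsetSum, Finset.sum_mul]
    refine Finset.sum_congr rfl fun a _ => ?_
    rcases Nat.eq_zero_or_pos a with rfl | ha
    · simp
    · obtain ⟨b, rfl⟩ : ∃ b, a = b + 1 := ⟨a - 1, by omega⟩
      simp only [Polynomial.derivative_mul, Polynomial.derivative_C, zero_mul, zero_add,
        Polynomial.derivative_X_pow, Polynomial.eval_mul, Polynomial.eval_C, Polynomial.eval_pow,
        Polynomial.eval_X, Nat.add_sub_cancel]
      rw [pow_succ]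
      ring
  rw [← hrz, ← hder]
  have hqz : q ^ n * z0 = 1 := mul_inv_cancel₀ (pow_ne_zero _ hq)
  calc (-1) ^ (n + 1) * (f q n) ^ 2 = -(((-1) ^ n * f q n) * f q n) := by ring
    _ = -((Polynomial.eval z0 A * q ^ ((n + 1).choose 2)) * f q n) := by rw [hAz]
    _ = -((Polynomial.eval z0 A * q ^ ((n + 1).choose 2)) * f q n) * (q ^ n * z0) := by
      rw [hqz, mul_one]
    _ = _ := by ring

/-- the finite form of Jacobi's identity -/
theorem fin_jac [Infinite F] {q : F} (hq : q ≠ 0) (n : ℕ) (hg : Gen q (2 * n + 1)) :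
    (f q n) ^ 2 = ∑ k ∈ range (n + 1), (-1) ^ k * (2 * k + 1) * q ^ ((k + 1).choose 2) *
      (f q (2 * n + 1) / (f q (n - k) * f q (n + 1 + k))) := by
  have h := euler hq n hg
  rw [show 2 * n + 1 + 1 = (n + 1) + (n + 1) by ring, Finset.sum_range_add,
    ← Finset.sum_range_reflect _ (n + 1), ← Finset.sum_add_distrib, Finset.mul_sum] at h
  have hqn : q ^ n ≠ 0 := pow_ne_zero _ hq
  have key : ∀ k ∈ range (n + 1), q ^ ((n + 1).choose 2) *
      (f q (2 * n + 1) / (f q (n + 1 - 1 - k) * f q (2 * n + 1 - (n + 1 - 1 - k))) *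
        (-1) ^ (n + 1 - 1 - k) * q ^ ((n + 1 - 1 - k).choose 2) * ((n + 1 - 1 - k : ℕ) : F) *
        ((q ^ n)⁻¹) ^ (n + 1 - 1 - k) +
      f q (2 * n + 1) / (f q (n + 1 + k) * f q (2 * n + 1 - (n + 1 + k))) *
        (-1) ^ (n + 1 + k) * q ^ ((n + 1 + k).choose 2) * ((n + 1 + k : ℕ) : F) *
        ((q ^ n)⁻¹) ^ (n + 1 + k)) =
      (-1) ^ (n + 1) * ((-1) ^ k * (2 * k + 1) * q ^ ((k + 1).choose 2) *
      (f q (2 * n + 1) / (f q (n - k) * f q (n + 1 + k)))) := by
    intro k hk
    have hkn : k ≤ n := Nat.lt_succ_iff.1 (Finset.mem_range.1 hk)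
    rw [show n + 1 - 1 - k = n - k by omega, show 2 * n + 1 - (n - k) = n + 1 + k by omega,
      show 2 * n + 1 - (n + 1 + k) = n - k by omega, mul_comm (f q (n + 1 + k)) (f q (n - k))]
    have e1 : q ^ ((n + 1).choose 2) * (q ^ ((n - k).choose 2) * ((q ^ n)⁻¹) ^ (n - k)) =
        q ^ ((k + 1).choose 2) := by
      rw [← mul_assoc, ← pow_add, add_comm, tri_dn n k hkn, pow_add, pow_mul, inv_pow]
      field_simp
    have e2 : q ^ ((n + 1).choose 2) * (q ^ ((n + 1 + k).choose 2) * ((q ^ n)⁻¹) ^ (n + 1 + k)) =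
        q ^ ((k + 1).choose 2) := by
      rw [← mul_assoc, ← pow_add, add_comm, tri_up n k, pow_add, pow_mul, inv_pow]
      field_simp
    have e3 : ((-1 : F)) ^ (n - k) = (-1) ^ n * (-1) ^ k := by
      obtain ⟨r, rfl⟩ := Nat.exists_eq_add_of_le hkn
      rw [Nat.add_sub_cancel_left, pow_add]
      have : ((-1 : F)) ^ k * (-1) ^ k = 1 := by
        rw [← mul_pow]; simp
      linear_combination (-((-1 : F)) ^ r) * this
    have e4 : ((n - k : ℕ) : F) = n - k := Nat.cast_sub hkn
    set W := f q (2 * n + 1) / (f q (n - k) * f q (n + 1 + k))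
    calc _ = W * (-1) ^ (n - k) * ((n - k : ℕ) : F) *
          (q ^ ((n + 1).choose 2) * (q ^ ((n - k).choose 2) * ((q ^ n)⁻¹) ^ (n - k))) +
          W * (-1) ^ (n + 1 + k) * ((n + 1 + k : ℕ) : F) *
          (q ^ ((n + 1).choose 2) * (q ^ ((n + 1 + k).choose 2) * ((q ^ n)⁻¹) ^ (n + 1 + k))) := by
          ring
      _ = _ := by
        rw [e1, e2, e3, e4]
        push_cast
        ring
  have h2 : (-1 : F) ^ (n + 1) * (f q n) ^ 2 = (-1) ^ (n + 1) *
      ∑ k ∈ range (n + 1), (-1) ^ k * (2 * k + 1) * q ^ ((k + 1).choose 2) *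
      (f q (2 * n + 1) / (f q (n - k) * f q (n + 1 + k))) := by
    rw [h, Finset.mul_sum]
    exact Finset.sum_congr rfl key
  exact mul_left_cancel₀ (pow_ne_zero _ (neg_ne_zero.2 one_ne_zero)) h2

end field

end Pool.Agent.Y246.Z700
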