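import Pool.Agent.H47.Fad.Lib.JTP

/-!
# Infinite products and the Jacobi triple product as an identity of power series over `ℤ`
-/

set_option autoImplicit false

namespace Q279.QS

open PowerSeries Filter Topology
open scoped PowerSeries.WithPiTopology

theorem multipliable_of_dvd {R : Type*} [CommRing R] [TopologicalSpace R] {u : ℕ → R⟦X⟧}
    (h : ∀ i, X ^ (i + 1) ∣ u i - 1) : Multipliable u := by
  have h1 : Tendsto (fun i : ℕ ↦ (u i - 1).order) atTop (𝓝 ⊤) := by
    refine ENat.tendsto_nhds_top_iff_natCast_lt.mpr (fun n ↦ Filter.eventually_atTop.mpr ⟨n, ?_⟩)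
    intro m hm
    have h2 : ((m + 1 : ℕ) : ℕ∞) ≤ (u m - 1).order := by
      refine le_order _ _ fun i hi => ?_
      exact X_pow_dvd_iff.1 (h m) i (by exact_mod_cast hi)
    refine lt_of_lt_of_le ?_ h2
    exact_mod_cast (by omega)
  have h2 := WithPiTopology.multipliable_one_add_of_tendsto_order_atTop_nhds_top R h1
  simpa using h2

theorem eventually_coeff {u : ℕ → ℤ⟦X⟧} (hu : Multipliable u) (m : ℕ) :
    ∀ᶠ N in atTop, coeff m (∏ i ∈ Finset.range N, u i) = coeff m (∏' i, u i) := by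
  have h1 := hu.hasProd.tendsto_prod_nat
  have h2 := (WithPiTopology.tendsto_iff_coeff_tendsto ℤ _ _ _).1 h1 m
  rw [nhds_discrete] at h2
  exact tendsto_pure.1 h2

theorem tprod_eq_of_coeff {u : ℕ → ℤ⟦X⟧} (hu : Multipliable u) {F : ℤ⟦X⟧}
    (h : ∀ m, ∀ᶠ N in atTop, coeff m (∏ i ∈ Finset.range N, u i) = coeff m F) :
    ∏' i, u i = F := by
  ext m
  obtain ⟨N, h1, h2⟩ := ((eventually_coeff hu m).and (h m)).exists
  rw [← h1, h2]

/-- `n(n-1)/2` -/
def tri (n : ℤ) : ℤ := n * (n - 1) / 2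

theorem two_tri (n : ℤ) : 2 * tri n = n * (n - 1) := by
  unfold tri
  refine Int.mul_ediv_cancel' ?_
  have := Int.even_mul_pred_self n
  exact this.two_dvd

theorem tri_natCast (n : ℕ) : tri n = (n.choose 2 : ℕ) := by
  have h1 := two_tri n
  have h2 := two_c2 n
  linarith

theorem tri_neg (n : ℕ) : tri (-(n + 1)) = ((n + 1).choose 2 : ℕ) + (n + 1) := by
  have h1 := two_tri (-(n + 1))
  have h2 := two_c2 (n + 1)
  push_cast at h2
  linarith

theorem tri_nonneg (n : ℤ) : 0 ≤ tri n := by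
  rcases n with n | n
  · rw [Int.ofNat_eq_natCast, tri_natCast]; positivity
  · rw [Int.negSucc_eq, tri_neg]; positivity

/-- the theta exponents `a n + (a+b) n(n-1)/2` -/
def te (a b : ℕ) (n : ℤ) : ℤ := a * n + (a + b) * tri n

theorem te_natCast (a b n : ℕ) : te a b n = ((a * n + (a + b) * n.choose 2 : ℕ) : ℤ) := by
  rw [te, tri_natCast]; push_cast; ring

theorem te_neg (a b n : ℕ) :
    te a b (-(n + 1)) = ((b * (n + 1) + (a + b) * (n + 1).choose 2 : ℕ) : ℤ) := by
  rw [te, tri_neg]; push_cast; ring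

theorem te_nonneg (a b : ℕ) (n : ℤ) : 0 ≤ te a b n := by
  rcases n with n | n
  · rw [Int.ofNat_eq_natCast, te_natCast]; positivity
  · rw [Int.negSucc_eq, te_neg]; positivity

theorem natAbs_le_te {a b : ℕ} (ha : 1 ≤ a) (hb : 1 ≤ b) (n : ℤ) : (n.natAbs : ℤ) ≤ te a b n := by
  rcases n with n | n
  · rw [Int.ofNat_eq_natCast, te_natCast]
    have := le_expo a b n ha
    simp only [Int.natAbs_natCast]
    exact_mod_cast this
  · rw [Int.negSucc_eq, te_neg]
    have := le_expo b a (n + 1) hb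
    rw [add_comm b a] at this
    have h2 : (-((n : ℤ) + 1)).natAbs = n + 1 := by omega
    rw [h2]
    exact_mod_cast this

theorem FF_te {a b : ℕ} (ha : 1 ≤ a) (hb : 1 ≤ b) : FF (te a b) := fun m =>
  (Set.finite_Icc (-m) m).subset fun n hn => by
    have h1 := natAbs_le_te ha hb n
    have h2 : te a b n = m := hn
    rw [Set.mem_Icc]
    omega

theorem mult_aux (ε : ℤ) (a c : ℕ) (ha : 1 ≤ a) (hc : 1 ≤ c) :
    Multipliable fun i : ℕ => (1 - C ε * X ^ (a + c * i) : ℤ⟦X⟧) := by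
  refine multipliable_of_dvd fun i => ?_
  have h : i + 1 ≤ a + c * i := by nlinarith
  refine ⟨-(C ε * X ^ (a + c * i - (i + 1))), ?_⟩
  rw [show (1 - C ε * X ^ (a + c * i) - 1 : ℤ⟦X⟧) = -(C ε * X ^ (a + c * i)) by ring]
  rw [show a + c * i = (i + 1) + (a + c * i - (i + 1)) by omega, pow_add, Nat.add_sub_cancel_left]
  ring

theorem mult_eul (c : ℕ) (hc : 1 ≤ c) :
    Multipliable fun i : ℕ => (1 - X ^ (c * (i + 1)) : ℤ⟦X⟧) := by
  have := mult_aux 1 c c hc hc
  refine this.congr fun i => ?_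
  rw [map_one, one_mul]
  congr 2
  ring

/-- **the Jacobi triple product** -/
theorem jtp (a b : ℕ) (ha : 1 ≤ a) (hb : 1 ≤ b) (ε : ℤ) (hε : ε * ε = 1) :
    (∏' i : ℕ, (1 - C ε * X ^ (a + (a + b) * i) : ℤ⟦X⟧)) *
      (∏' i : ℕ, (1 - C ε * X ^ (b + (a + b) * i) : ℤ⟦X⟧)) *
      (∏' i : ℕ, (1 - X ^ ((a + b) * (i + 1)) : ℤ⟦X⟧)) =
    TS (te a b) (fun n => (-ε) ^ n.natAbs) := by
  have m1 := mult_aux ε a (a + b) ha (by omega)
  have m2 := mult_aux ε b (a + b) hb (by omega)
  have m3 := mult_eul (a + b) (by omega)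
  rw [← m1.tprod_mul m2, ← (m1.mul m2).tprod_mul m3]
  refine tprod_eq_of_coeff ((m1.mul m2).mul m3) fun m => ?_
  refine eventually_atTop.2 ⟨m, fun N hN => ?_⟩
  have h := Polynomial.X_pow_dvd_iff.1 (jtp_dvd a b ha hb ε hε N) m (by omega)
  rw [Polynomial.coeff_sub, sub_eq_zero] at h
  have h1 : ∏ i ∈ Finset.range N, ((1 - C ε * X ^ (a + (a + b) * i)) *
      (1 - C ε * X ^ (b + (a + b) * i)) * (1 - X ^ ((a + b) * (i + 1)) : ℤ⟦X⟧)) =
      (((∏ i ∈ Finset.range N, (1 - Polynomial.C ε * Polynomial.X ^ (a + (a + b) * i))) *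
      (∏ i ∈ Finset.range N, (1 - Polynomial.C ε * Polynomial.X ^ (b + (a + b) * i))) *
        PPc (a + b) N : Polynomial ℤ) : ℤ⟦X⟧) := by
    rw [Finset.prod_mul_distrib, Finset.prod_mul_distrib, PPc]
    simp only [← Polynomial.coeToPowerSeries.ringHom_apply, map_mul, map_prod, map_sub, map_one,
      map_pow]
    simp
  rw [h1, Polynomial.coeff_coe, h, TS_int (FF_te ha hb), map_add]
  have e1 : (fun n : ℕ => te a b (n : ℤ)) = fun n : ℕ => ((a * n + (a + b) * n.choose 2 : ℕ) : ℤ) :=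
    funext fun n => te_natCast a b n
  have e2 : (fun n : ℕ => te a b (-(n + 1))) =
      fun n : ℕ => ((b * (n + 1) + (a + b) * (n + 1).choose 2 : ℕ) : ℤ) :=
    funext fun n => te_neg a b n
  rw [e1, e2, coeff_TS_nat (K := N + 1) (fun n => by exact_mod_cast le_expo a b n ha) _ (by omega),
    coeff_TS_nat (K := N + 1) (fun n => by
      have := le_expo b a (n + 1) hb
      rw [add_comm b a] at this
      exact_mod_cast (by omega)) _ (by omega), Polynomial.coeff_add, Polynomial.finsetSum_coeff,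
    Polynomial.finsetSum_coeff]
  congr 1
  · refine Finset.sum_congr rfl fun n _ => ?_
    rw [Polynomial.coeff_C_mul, Polynomial.coeff_X_pow]
    simp only [Int.natAbs_natCast, Nat.cast_inj, mul_ite, mul_one, mul_zero]
    refine if_congr ?_ rfl rfl
    exact eq_comm
  · rw [Finset.sum_range_succ, if_neg, add_zero]
    · refine Finset.sum_congr rfl fun n _ => ?_
      rw [Polynomial.coeff_C_mul, Polynomial.coeff_X_pow]
      have h2 : (-((n : ℤ) + 1)).natAbs = n + 1 := by omega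
      simp only [h2, Nat.cast_inj, mul_ite, mul_one, mul_zero]
      refine if_congr ?_ rfl rfl
      exact eq_comm
    · have := le_expo b a (N + 1) hb
      rw [add_comm b a] at this
      intro h3
      have h4 : b * (N + 1) + (a + b) * (N + 1).choose 2 = m := by exact_mod_cast h3
      omega

end Q279.QS
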