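import Mathlib

/-!
Project JONES, part (i): the `q`-series identity behind the coloured Jones polynomial of the
figure eight knot (state sum of the braid `(σ₁σ₂⁻¹)²` = cyclotomic expansion).
-/

set_option autoImplicit false

namespace Pool.Agent.H464R3.J

open Finset

variable {F : Type*} [Field F]

/-- `(q;q)_n` -/
def f (q : F) (n : ℕ) : F := ∏ j ∈ range n, (1 - q ^ (j + 1))

@[simp] lemma f_zero (q : F) : f q 0 = 1 := by simp [f]

lemma f_succ (q : F) (n : ℕ) : f q (n + 1) = f q n * (1 - q ^ (n + 1)) := by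
  unfold f; rw [prod_range_succ]

/-- nonvanishing up to `N` -/
def Gen (q : F) (N : ℕ) : Prop := ∀ j, 1 ≤ j → j ≤ N → 1 - q ^ j ≠ 0

lemma Gen.f_ne {q : F} {N : ℕ} (h : Gen q N) {n : ℕ} (hn : n ≤ N) : f q n ≠ 0 := by
  unfold f
  rw [prod_ne_zero_iff]
  intro j hj
  rw [mem_range] at hj
  exact h (j + 1) (by omega) (by omega)

/-- first sum -/
def SA (q : F) (L N : ℕ) : F :=
  ∑ s ∈ range (L + 1), f q L / (f q s * f q (L - s)) * q ^ ((N + 1) * s) * f q (N - s)

/-- second sum -/
def SB (q : F) (L N : ℕ) : F :=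
  ∑ n ∈ range (L + 1), q ^ (n * n) * (f q L) ^ 2 * f q (N - n) / ((f q n) ^ 2 * f q (L - n))

lemma SA_rec {q : F} {L N : ℕ} (hLN : L ≤ N) (h : Gen q (N + 1)) :
    SA q (L + 1) (N + 1) = SA q L (N + 1) + q ^ (N + L + 2) * SA q L N := by
  unfold SA
  rw [sum_range_succ' _ (L + 1), sum_range_succ' (fun s => f q L / (f q s * f q (L - s)) *
    q ^ ((N + 1 + 1) * s) * f q (N + 1 - s)) L]
  rw [sum_range_succ (fun s => f q (L + 1) / (f q (s + 1) * f q (L + 1 - (s + 1))) *
    q ^ ((N + 1 + 1) * (s + 1)) * f q (N + 1 - (s + 1))) L]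
  rw [mul_sum, sum_range_succ (fun s => q ^ (N + L + 2) * (f q L / (f q s * f q (L - s)) *
    q ^ ((N + 1) * s) * f q (N - s))) L]
  have hterm : ∀ s ∈ range L, f q (L + 1) / (f q (s + 1) * f q (L + 1 - (s + 1))) *
      q ^ ((N + 1 + 1) * (s + 1)) * f q (N + 1 - (s + 1)) =
      f q L / (f q (s + 1) * f q (L - (s + 1))) *
      q ^ ((N + 1 + 1) * (s + 1)) * f q (N + 1 - (s + 1)) +
      q ^ (N + L + 2) * (f q L / (f q s * f q (L - s)) * q ^ ((N + 1) * s) * f q (N - s)) := by
    intro s hs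
    rw [mem_range] at hs
    obtain ⟨r, rfl⟩ := Nat.exists_eq_add_of_lt hs
    have e1 : s + r + 1 + 1 - (s + 1) = r + 1 := by omega
    have e2 : s + r + 1 - (s + 1) = r := by omega
    have e3 : s + r + 1 - s = r + 1 := by omega
    have e4 : N + 1 - (s + 1) = N - s := by omega
    rw [e1, e2, e3, e4]
    have n1 := h.f_ne (n := s) (by omega)
    have n2 := h.f_ne (n := r) (by omega)
    have n3 := h (s + 1) (by omega) (by omega)
    have n4 := h (r + 1) (by omega) (by omega)
    rw [f_succ q (s + r + 1), f_succ q s, f_succ q r]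
    have e5 : q ^ (N + (s + r + 1) + 2) * (f q (s + r + 1) / (f q s * (f q r * (1 - q ^ (r + 1)))) *
        q ^ ((N + 1) * s) * f q (N - s)) = q ^ (r + 1) * (f q (s + r + 1) /
        (f q s * (f q r * (1 - q ^ (r + 1))))) * q ^ ((N + 1 + 1) * (s + 1)) * f q (N - s) := by
      have : q ^ ((N + 1 + 1) * (s + 1)) * q ^ (r + 1) =
          q ^ (N + (s + r + 1) + 2) * q ^ ((N + 1) * s) := by
        rw [← pow_add, ← pow_add]; congr 1; ring
      linear_combination (-(f q (s + r + 1) / (f q s * (f q r * (1 - q ^ (r + 1)))) *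
        f q (N - s))) * this
    rw [e5]
    have key : f q (s + r + 1) * (1 - q ^ (s + r + 1 + 1)) /
        (f q s * (1 - q ^ (s + 1)) * (f q r * (1 - q ^ (r + 1)))) =
        f q (s + r + 1) / (f q s * (1 - q ^ (s + 1)) * f q r) +
        q ^ (r + 1) * (f q (s + r + 1) / (f q s * (f q r * (1 - q ^ (r + 1))))) := by
      field_simp
      ring
    rw [key]; ring
  rw [sum_congr rfl hterm, sum_add_distrib]
  have e6 : L + 1 - (L + 1) = 0 := by omega
  have e7 : N + 1 - (L + 1) = N - L := by omega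
  have n1 := h.f_ne (n := L + 1) (by omega)
  have n2 := h.f_ne (n := L) (by omega)
  have hlast : f q (L + 1) / (f q (L + 1) * f q (L + 1 - (L + 1))) *
      q ^ ((N + 1 + 1) * (L + 1)) * f q (N + 1 - (L + 1)) =
      q ^ (N + L + 2) * (f q L / (f q L * f q (L - L)) * q ^ ((N + 1) * L) * f q (N - L)) := by
    rw [e6, e7, Nat.sub_self, f_zero, mul_one, mul_one, div_self n1, div_self n2]
    have : q ^ ((N + 1 + 1) * (L + 1)) = q ^ (N + L + 2) * q ^ ((N + 1) * L) := by
      rw [← pow_add]; congr 1; ring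
    rw [this]; ring
  have hfirst : f q (L + 1) / (f q 0 * f q (L + 1 - 0)) * q ^ ((N + 1 + 1) * 0) * f q (N + 1 - 0) =
      f q L / (f q 0 * f q (L - 0)) * q ^ ((N + 1 + 1) * 0) * f q (N + 1 - 0) := by
    simp only [Nat.sub_zero, f_zero, one_mul, div_self n1, div_self n2]
  rw [hlast, hfirst]
  ring

lemma SB_rec {q : F} (hq : q ≠ 0) {L N : ℕ} (hLN : L ≤ N) (h : Gen q (N + 1)) :
    SB q (L + 1) (N + 1) = SB q L (N + 1) + q ^ (N + L + 2) * SB q L N := by
  -- telescoping
  have tel : ∀ m, m ≤ L + 1 →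
      ∑ n ∈ range m, (q ^ (n * n) * (f q (L + 1)) ^ 2 * f q (N + 1 - n) /
          ((f q n) ^ 2 * f q (L + 1 - n)) -
        q ^ (n * n) * (f q L) ^ 2 * f q (N + 1 - n) / ((f q n) ^ 2 * f q (L - n)) -
        q ^ (N + L + 2) * (q ^ (n * n) * (f q L) ^ 2 * f q (N - n) /
          ((f q n) ^ 2 * f q (L - n)))) =
      - (q ^ (L + 1) * (q ^ (m * m) / q ^ m * (1 - q ^ m) ^ 2 * (f q L) ^ 2 * f q (N + 1 - m) /
        ((f q m) ^ 2 * f q (L + 1 - m)))) := by
    intro m
    induction m with
    | zero => intro _; simp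
    | succ n ih =>
      intro hn
      rw [sum_range_succ, ih (by omega)]
      have hnL : n ≤ L := by omega
      obtain ⟨r, rfl⟩ := Nat.exists_eq_add_of_le hnL
      obtain ⟨t, rfl⟩ := Nat.exists_eq_add_of_le hLN
      have e1 : n + r + 1 - n = r + 1 := by omega
      have e2 : n + r - n = r := by omega
      have e3 : n + r + t + 1 - n = r + t + 1 := by omega
      have e4 : n + r + t - n = r + t := by omega
      have e5 : n + r + 1 - (n + 1) = r := by omega
      have e6 : n + r + t + 1 - (n + 1) = r + t := by omega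
      rw [e1, e2, e3, e4, e5, e6]
      have n1 := h.f_ne (n := n) (by omega)
      have n2 := h.f_ne (n := r) (by omega)
      have n3 := h (n + 1) (by omega) (by omega)
      have n4 := h (r + 1) (by omega) (by omega)
      rw [f_succ q (n + r), f_succ q n, f_succ q r, f_succ q (r + t)]
      have p1 : q ^ ((n + 1) * (n + 1)) = q ^ (n * n) * q ^ n * q ^ n * q := by
        rw [← pow_add, ← pow_add, ← pow_succ]; congr 1; ring
      have p2 : q ^ (n + r + t + (n + r) + 2) = q ^ n * q ^ n * q ^ r * q ^ r * q ^ t * q ^ 2 := by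
        ring
      rw [p1, p2]
      have hqn : q ^ n ≠ 0 := pow_ne_zero _ hq
      simp only [pow_succ, pow_add] at *
      field_simp
      ring
  have hm := tel (L + 1) le_rfl
  unfold SB
  rw [sum_range_succ _ (L + 1)]
  rw [mul_sum]
  rw [sum_sub_distrib, sum_sub_distrib] at hm
  have n1 := h.f_ne (n := L + 1) (by omega)
  have n2 := h.f_ne (n := L) (by omega)
  have n3 := h (L + 1) (by omega) (by omega)
  have e6 : L + 1 - (L + 1) = 0 := by omega
  rw [e6] at hm ⊢
  rw [f_zero, mul_one] at hm ⊢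
  have hlast : q ^ ((L + 1) * (L + 1)) * f q (L + 1) ^ 2 * f q (N + 1 - (L + 1)) / f q (L + 1) ^ 2 =
      q ^ (L + 1) * (q ^ ((L + 1) * (L + 1)) / q ^ (L + 1) * (1 - q ^ (L + 1)) ^ 2 * f q L ^ 2 *
        f q (N + 1 - (L + 1)) / f q (L + 1) ^ 2) := by
    have hqn : q ^ (L + 1) ≠ 0 := pow_ne_zero _ hq
    rw [f_succ q L]
    rw [f_succ q L] at n1
    field_simp
  rw [hlast]
  linear_combination hm

lemma SA_eq_SB {q : F} (hq : q ≠ 0) : ∀ (L N : ℕ), L ≤ N → Gen q N → SA q L N = SB q L N := by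
  intro L
  induction L with
  | zero =>
    intro N _ _
    simp [SA, SB]
  | succ L ih =>
    intro N hLN h
    obtain ⟨M, rfl⟩ : ∃ M, N = M + 1 := ⟨N - 1, by omega⟩
    have hM : Gen q M := fun j h1 h2 => h j h1 (by omega)
    rw [SA_rec (by omega) h, SB_rec hq (by omega) h, ih (M + 1) (by omega) h, ih M (by omega) hM]

/-- the `q`-binomial theorem -/
lemma qbinom {q : F} (z : F) : ∀ (k : ℕ), Gen q k →
    ∏ j ∈ range k, (1 - z * q ^ j) =
      ∑ a ∈ range (k + 1), f q k / (f q a * f q (k - a)) * (-1) ^ a * q ^ (a.choose 2) * z ^ a := by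
  intro k
  induction k with
  | zero => intro _; simp
  | succ k ih =>
    intro h
    have hk : Gen q k := fun j h1 h2 => h j h1 (by omega)
    rw [prod_range_succ, ih hk, sum_range_succ' _ (k + 1), sum_range_succ _ k,
      sum_range_succ (fun a => f q (k + 1) / (f q (a + 1) * f q (k + 1 - (a + 1))) *
        (-1) ^ (a + 1) * q ^ ((a + 1).choose 2) * z ^ (a + 1)) k]
    have hterm : ∀ a ∈ range k, f q (k + 1) / (f q (a + 1) * f q (k + 1 - (a + 1))) *
        (-1) ^ (a + 1) * q ^ ((a + 1).choose 2) * z ^ (a + 1) =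
        f q k / (f q (a + 1) * f q (k - (a + 1))) * (-1) ^ (a + 1) * q ^ ((a + 1).choose 2) *
          z ^ (a + 1) - z * q ^ k * (f q k / (f q a * f q (k - a)) * (-1) ^ a *
            q ^ (a.choose 2) * z ^ a) := by
      intro a ha
      rw [mem_range] at ha
      obtain ⟨r, rfl⟩ := Nat.exists_eq_add_of_lt ha
      have e1 : a + r + 1 + 1 - (a + 1) = r + 1 := by omega
      have e2 : a + r + 1 - (a + 1) = r := by omega
      have e3 : a + r + 1 - a = r + 1 := by omega
      rw [e1, e2, e3]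
      have n1 := h.f_ne (n := a) (by omega)
      have n2 := h.f_ne (n := r) (by omega)
      have n3 := h (a + 1) (by omega) (by omega)
      have n4 := h (r + 1) (by omega) (by omega)
      have p1 : q ^ ((a + 1).choose 2) = q ^ (a.choose 2) * q ^ a := by
        rw [← pow_add]; congr 1
        rw [Nat.choose_succ_succ' a 1, Nat.choose_one_right]; ring
      rw [f_succ q (a + r + 1), f_succ q a, f_succ q r, p1]
      simp only [pow_succ, pow_add] at *
      field_simp
      ring
    have hsum := sum_congr rfl hterm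
    rw [hsum, sum_sub_distrib, ← mul_sum]
    have h0 := sum_range_succ' (fun a => f q k / (f q a * f q (k - a)) * (-1) ^ a *
      q ^ (a.choose 2) * z ^ a) k
    rw [sum_range_succ] at h0
    have n1 := h.f_ne (n := k + 1) (by omega)
    have n2 := h.f_ne (n := k) (by omega)
    have p1 : q ^ ((k + 1).choose 2) = q ^ (k.choose 2) * q ^ k := by
      rw [← pow_add]; congr 1
      rw [Nat.choose_succ_succ' k 1, Nat.choose_one_right]; ring
    simp only [Nat.sub_self, Nat.sub_zero, f_zero, one_mul, mul_one, div_self n1, div_self n2,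
      pow_zero, Nat.choose_zero_succ, p1] at h0 ⊢
    simp only [pow_succ] at h0 ⊢
    linear_combination (1 : F) * h0
end Pool.Agent.H464R3.J
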