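import Pool.Agent.H47.Fad.Lib.HQ

/-!
# Ramanujan's differential equations
-/

set_option autoImplicit false

noncomputable section

open UpperHalfPlane hiding I
open ModularForm MatrixGroups Filter Topology Function Real Complex EisensteinSeries
open scoped Manifold
open PowerSeries (coeff)

namespace Pool.Agent.Q237.SX

open Pool.Agent.Q279.SC

/-- the derivative -/
abbrev nD (F : ℍ → ℂ) : ℍ → ℂ := Derivative.normalizedDerivOfComplex F

lemma coeff_nat_mul {R : Type} [CommRing R] (c m : ℕ) (f : PowerSeries R) :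
    coeff m ((c : PowerSeries R) * f) = c * coeff m f := by
  have h : (c : PowerSeries R) = PowerSeries.C (c : R) := (map_natCast PowerSeries.C c).symm
  rw [h, PowerSeries.coeff_C_mul]

lemma coeff_q4 (m : ℕ) : coeff m (q4 ℂ) =
    if m = 0 then 1 else 240 * (ArithmeticFunction.sigma 3 m : ℂ) := by
  unfold q4 z4
  rw [PowerSeries.coeff_map, map_add, PowerSeries.coeff_one]
  have h := coeff_nat_mul 240 m zA
  rw [Nat.cast_ofNat] at h
  rw [h]
  unfold zA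
  rw [PowerSeries.coeff_mk]
  rcases m with _ | m
  · simp
  · simp [ArithmeticFunction.sigma_apply]

lemma coeff_q6 (m : ℕ) : coeff m (q6 ℂ) =
    if m = 0 then 1 else -504 * (ArithmeticFunction.sigma 5 m : ℂ) := by
  unfold q6 z6
  rw [PowerSeries.coeff_map, map_sub, PowerSeries.coeff_one]
  have h := coeff_nat_mul 504 m zB
  rw [Nat.cast_ofNat] at h
  rw [h]
  unfold zB
  rw [PowerSeries.coeff_mk]
  rcases m with _ | m
  · simp
  · simp [ArithmeticFunction.sigma_apply]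

lemma coeff_q2 (m : ℕ) : coeff m (q2 ℂ) =
    if m = 0 then 1 else -24 * (ArithmeticFunction.sigma 1 m : ℂ) := by
  unfold q2 z2
  rw [PowerSeries.coeff_map, map_sub, PowerSeries.coeff_one]
  have h := coeff_nat_mul 24 m zS
  rw [Nat.cast_ofNat] at h
  rw [h]
  unfold zS
  rw [PowerSeries.coeff_mk]
  rcases m with _ | m
  · simp
  · simp [ArithmeticFunction.sigma_apply]

theorem qE4 : qExpansion 1 E₄ = q4 ℂ := by
  ext m
  rw [coeff_q4, E_qExpansion_coeff _ ⟨2, rfl⟩]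
  have hb : bernoulli 4 = -1 / 30 := by decide +kernel
  rw [hb]
  congr 1
  norm_num

theorem qE6 : qExpansion 1 E₆ = q6 ℂ := by
  ext m
  rw [coeff_q6, E_qExpansion_coeff _ ⟨3, rfl⟩]
  have hb : bernoulli 6 = 1 / 42 := by decide +kernel
  rw [hb]
  congr 1
  norm_num

theorem hq4 : HQ E₄ (q4 ℂ) := by
  rw [← qE4]
  exact HQ.of_mf _

theorem hq6 : HQ E₆ (q6 ℂ) := by
  rw [← qE6]
  exact HQ.of_mf _

theorem hq2 : HQ E2 (q2 ℂ) := by
  intro τ
  have h := hasSum_qExpansion_E2 (z := τ)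
  simp only [coeff_q2, Periodic.qParam, ofReal_one, div_one]
  exact h

/-- a form of small weight without constant term vanishes -/
theorem small_zero {k : ℕ} (hk : k < 12) {a : PowerSeries ℂ} (f : ModularForm 𝒮ℒ (k : ℤ))
    (ha : HQ f a) (h0 : coeff 0 a = 0) : a = 0 := by
  have h1 : qExpansion 1 f = a := (HQ.of_mf f).unique ha
  have h2 : f = 0 := by
    apply ModularForm.sturm_bound_levelOne_nat
    have h3 : k / 12 = 0 := by omega
    rw [h3, h1]
    have h4 : ((0 : ℕ) : ℕ∞) ≠ a.order := by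
      intro h5
      have h6 := PowerSeries.order_eq_nat.1 h5.symm
      exact h6.1 h0
    exact lt_of_le_of_ne bot_le h4
  rw [← h1, h2, FunLike.coe_zero, qExpansion_zero]

lemma coeff0_th {R : Type} [CommRing R] (f : PowerSeries R) : coeff 0 (th f) = 0 := by
  unfold th
  rw [PowerSeries.coeff_mk, Nat.cast_zero, zero_mul]

lemma coeff0_mul {R : Type} [CommRing R] (f g : PowerSeries R) :
    coeff 0 (f * g) = coeff 0 f * coeff 0 g := by
  simp


lemma mf_S {k : ℤ} (f : ModularForm 𝒮ℒ k) : (f : ℍ → ℂ) ∣[k] ModularGroup.S = f := by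
  rw [ModularForm.SL_slash]
  exact SlashInvariantForm.slash_action_eqn f _ ⟨ModularGroup.S, rfl⟩

/-- the derivative of `E₄` -/
theorem th4 : 3 * th (q4 ℂ) = q2 ℂ * q4 ℂ - q6 ℂ := by
  have h1 : HQ (fun τ => nD E₄ τ - (3⁻¹ : ℂ) * (E2 τ * E₄ τ))
      (th (q4 ℂ) - PowerSeries.C 3⁻¹ * (q2 ℂ * q4 ℂ)) :=
    hq4.der.sub ((hq2.mul hq4).smul _)
  have hS : (fun τ => nD E₄ τ - (3⁻¹ : ℂ) * (E2 τ * E₄ τ)) ∣[((6 : ℕ) : ℤ)] ModularGroup.S =
      (fun τ => nD E₄ τ - (3⁻¹ : ℂ) * (E2 τ * E₄ τ)) := by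
    have h3 := Derivative.serreDerivative_slash_invariant (k := 4) hq4.mdiff (mf_S E₄)
    have h4 : Derivative.serreDerivative ((4 : ℤ) : ℂ) E₄ =
        fun τ => nD E₄ τ - (3⁻¹ : ℂ) * (E2 τ * E₄ τ) := by
      funext τ
      rw [Derivative.serreDerivative_apply]
      push_cast
      ring
    rw [h4] at h3
    exact h3
  have h5 : HQ (⇑(h1.toMF _ hS + (3⁻¹ : ℂ) • (E₆ : ModularForm 𝒮ℒ ((6 : ℕ) : ℤ))))
      (th (q4 ℂ) - PowerSeries.C 3⁻¹ * (q2 ℂ * q4 ℂ) + PowerSeries.C 3⁻¹ * q6 ℂ) :=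
    (h1.add (hq6.smul 3⁻¹)).congr fun τ => rfl
  have h6 := small_zero (by norm_num) _ h5 (by
    rw [map_add, map_sub, coeff0_th, PowerSeries.coeff_C_mul, PowerSeries.coeff_C_mul,
      coeff0_mul, coeff_q2, coeff_q4, coeff_q6]
    simp)
  have h7 : (3 : PowerSeries ℂ) * PowerSeries.C 3⁻¹ = 1 := by
    have : (3 : PowerSeries ℂ) = PowerSeries.C (3 : ℂ) := (map_ofNat PowerSeries.C 3).symm
    rw [this, ← map_mul, mul_inv_cancel₀ (by norm_num), map_one]
  linear_combination 3 * h6 + (q2 ℂ * q4 ℂ - q6 ℂ) * h7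

/-- the derivative of `E₆` -/
theorem th6 : 2 * th (q6 ℂ) = q2 ℂ * q6 ℂ - q4 ℂ ^ 2 := by
  have h1 : HQ (fun τ => nD E₆ τ - (2⁻¹ : ℂ) * (E2 τ * E₆ τ))
      (th (q6 ℂ) - PowerSeries.C 2⁻¹ * (q2 ℂ * q6 ℂ)) :=
    hq6.der.sub ((hq2.mul hq6).smul _)
  have hS : (fun τ => nD E₆ τ - (2⁻¹ : ℂ) * (E2 τ * E₆ τ)) ∣[((8 : ℕ) : ℤ)] ModularGroup.S =
      (fun τ => nD E₆ τ - (2⁻¹ : ℂ) * (E2 τ * E₆ τ)) := by
    have h3 := Derivative.serreDerivative_slash_invariant (k := 6) hq6.mdiff (mf_S E₆)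
    have h4 : Derivative.serreDerivative ((6 : ℤ) : ℂ) E₆ =
        fun τ => nD E₆ τ - (2⁻¹ : ℂ) * (E2 τ * E₆ τ) := by
      funext τ
      rw [Derivative.serreDerivative_apply]
      push_cast
      ring
    rw [h4] at h3
    exact h3
  have h5 : HQ (⇑(h1.toMF _ hS + (2⁻¹ : ℂ) •
      (ModularForm.mcast (by norm_num) (E₄.mul E₄) : ModularForm 𝒮ℒ ((8 : ℕ) : ℤ))))
      (th (q6 ℂ) - PowerSeries.C 2⁻¹ * (q2 ℂ * q6 ℂ) + PowerSeries.C 2⁻¹ * (q4 ℂ * q4 ℂ)) :=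
    (h1.add ((hq4.mul hq4).smul 2⁻¹)).congr fun τ => rfl
  have h6 := small_zero (by norm_num) _ h5 (by
    rw [map_add, map_sub, coeff0_th, PowerSeries.coeff_C_mul, PowerSeries.coeff_C_mul,
      coeff0_mul, coeff0_mul, coeff_q2, coeff_q4, coeff_q6]
    simp)
  have h7 : (2 : PowerSeries ℂ) * PowerSeries.C 2⁻¹ = 1 := by
    have : (2 : PowerSeries ℂ) = PowerSeries.C (2 : ℂ) := (map_ofNat PowerSeries.C 2).symm
    rw [this, ← map_mul, mul_inv_cancel₀ (by norm_num), map_one]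
  linear_combination 2 * h6 + (q2 ℂ * q6 ℂ - q4 ℂ ^ 2) * h7

end Pool.Agent.Q237.SX
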